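import Pool.Agent.Lib.MP_bafc89_co.KE.Spec

/-!
# MP_bafc89_co, complete graph minus an edge: module FIN
-/

set_option autoImplicit false

namespace Pool.Agent.Lib.MPbafc89.KE

open SimpleGraph
open Pool.Agent.Lib.MPbafc89.BQ (Jn Cn cn_iff)

universe u v

theorem specFIN (hMAI : SpecMAI.{u}) (hMNI : SpecMNI.{u, v}) (hMNM : SpecMNM.{u, v}) :
    SpecFIN.{u, v} := by
  intro n hn V G α H hH hG
  obtain ⟨k, rfl⟩ : ∃ k, n = k + 2 := ⟨n - 2, by omega⟩
  have hk : 1 ≤ k := by omega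
  have h1 : k + 2 ≤ max (k + 2) (2 * (k + 2) - 6) := le_max_left _ _
  have h2 : 2 * k ≤ max (k + 2) (2 * (k + 2) - 6) + 2 := by
    have := le_max_right (k + 2) (2 * (k + 2) - 6)
    omega
  have hN : NoE G k := (hMNI V G k α H hH).2 hG
  obtain ⟨W, G', f, hf, hlow, hupp, hN', hm⟩ :=
    hMAI V G k (max (k + 2) (2 * (k + 2) - 6)) hN hk h1 h2
  refine ⟨W, G', f, hf, hlow, hupp, (hMNI W G' k α H hH).1 hN', ?_, ?_⟩
  · rintro ⟨B, hB1, hB2, hB3⟩
    exact hm B ⟨fun i => cn_iff.2 (hB1 i), hB2, fun i j hij => hB3 i j hij⟩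
  · intro h6 hmin
    obtain ⟨B, hB⟩ := hMNM W G' k α H hH hN' hmin
    have he : max (k + 2) (2 * (k + 2) - 6) = k + 2 := max_eq_left (by omega)
    rw [he] at hm
    exact hm B hB

end Pool.Agent.Lib.MPbafc89.KE
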