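import Pool.Agent.Lib.MP_bafc89_co.KE.Spec

/-!
# MP_bafc89_co, module INT: two big cliques have few common elements
-/

set_option autoImplicit false

namespace Pool.Agent.Lib.MPbafc89.KE

open SimpleGraph
open Pool.Agent.Lib.MPbafc89.BQ (Jn Cn)

universe u

theorem specINT (hLMB : SpecLMB.{u}) : SpecINT.{u} := by
  intro V G k m hNo hk hkm h2 K K' hK hK' hne
  have hC0 : (K' \ K).Nonempty := by
    by_contra h0
    rw [Set.not_nonempty_iff_eq_empty, Set.sdiff_eq_empty] at h0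
    apply hne
    apply Set.Subset.antisymm _ h0
    intro x hx
    by_contra hxK'
    obtain ⟨y, hy, hxy⟩ := hK'.max x hxK'
    exact hxy (hK.clq x hx y (h0 hy) (fun h => hxK' (h ▸ hy)))
  have hC : Cn G (K' \ K) :=
    cn_of_clique hC0 (fun x hx y hy hxy => hK'.clq x hx.1 y hy.1 hxy)
  have hd : Disjoint (K' \ K) K := Set.disjoint_sdiff_left
  refine lt_of_le_of_lt (Set.encard_le_encard ?_) (hLMB V G k m hNo hk hkm h2 K (K' \ K) hK hC hd)
  intro z hz
  obtain ⟨c, hc⟩ := hC0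
  exact ⟨hz.1, c, hc, hK'.clq c hc.1 z hz.2 (fun h => hc.2 (h ▸ hz.1))⟩

end Pool.Agent.Lib.MPbafc89.KE
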