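import Pool.Agent.Lib.MP_bafc89_co.KE.Spec

set_option autoImplicit false

namespace Pool.Agent.Lib.MPbafc89.KE

open SimpleGraph
open Pool.Agent.Lib.MPbafc89.BQ (Jn Cn)

universe u v

namespace INVM

lemma cn_comp {V : Type u} {G : SimpleGraph V} {S : Set V} {r : V} (hr : r ∈ S) :
    Cn G {y | Jn G S r y} := by
  have hrr : r ∈ {y | Jn G S r y} := Jn.refl hr
  refine Cn.of_center hrr ?_
  intro y hy
  have key : Jn G S r y := hy
  refine key.induct (fun z => Jn G {y | Jn G S r y} r z) (Jn.refl hrr) ?_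
  intro a b ha hb hab h1
  have h2 : a ∈ {y | Jn G S r y} := h1.right
  have h3 : Jn G S r a := h2
  have h4 : b ∈ {y | Jn G S r y} := h3.trans (Jn.adj ha hb hab)
  exact h1.trans (Jn.adj h2 h4 hab)

end INVM

open INVM in
theorem specINV (hLMB : SpecLMB.{u}) : SpecINV.{u} := by
  intro V G k m hE hk1 hk2 hk3 ρ hρ K hK
  -- one step
  have step : ∀ X : Set V, X ⊆ K → X.encard + 1 < (k : ℕ∞) →
      nxt G ρ K X ⊆ K ∧ (nxt G ρ K X).encard < (k : ℕ∞) ∧ X ⊆ nxt G ρ K X := by
    intro X hXK hX
    -- an element of K outside X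
    have hz : ∃ z ∈ K, z ∉ X := by
      by_contra hcon
      push Not at hcon
      have h1 : K.encard ≤ X.encard := Set.encard_le_encard hcon
      have h2 : (m : ℕ∞) ≤ X.encard := hK.big.trans h1
      have h3 : X.encard + 1 < (m : ℕ∞) := lt_of_lt_of_le hX (by exact_mod_cast (by omega : k ≤ m))
      have h4 : X.encard ≤ X.encard + 1 := le_self_add
      exact absurd (lt_of_le_of_lt (h2.trans h4) h3) (lt_irrefl _)
    obtain ⟨z, hzK, hzX⟩ := hz
    have hzD : z ∈ Dom G X K := ⟨z, ⟨hzK, hzX⟩, Jn.refl hzX⟩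
    have hr := hρ X (Dom G X K) ⟨z, hzD, fun x hx => hK.clq z hzK x (hXK hx) (by
      rintro rfl; exact hzX hx)⟩
    set r := ρ X (Dom G X K) with hrdef
    unfold nxt
    rw [← hrdef]
    by_cases hrK : r ∈ K
    · rw [if_pos hrK]
      refine ⟨?_, ?_, Set.subset_insert _ _⟩
      · intro x hx
        rcases hx with rfl | hx
        · exact hrK
        · exact hXK hx
      · exact lt_of_le_of_lt (Set.encard_insert_le X r) hX
    · rw [if_neg hrK]
      have hrc : r ∈ Kᶜ := hrK
      refine ⟨fun x hx => hx.1, ?_, ?_⟩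
      · have h1 := hLMB V G k m hE hk1 hk2 hk3 K {y | Jn G Kᶜ r y} hK (cn_comp hrc) (by
          rw [Set.disjoint_left]
          intro y hy hyK
          exact (Jn.right hy) hyK)
        refine lt_of_le_of_lt (Set.encard_le_encard ?_) h1
        rintro x ⟨hx, y, hy, hyx⟩
        exact ⟨hx, y, hy, hyx⟩
      · intro x hx
        exact ⟨hXK hx, r, Jn.refl hrc, hr.2 x hx⟩
  have main : ∀ j, top G ρ k K j ⊆ K ∧ (top G ρ k K j).encard < (k : ℕ∞) := by
    intro j
    induction j with
    | zero =>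
      refine ⟨by simp [top], ?_⟩
      simp only [top, Set.encard_empty]
      exact_mod_cast hk1
    | succ j ih =>
      simp only [top]
      by_cases h : (top G ρ k K j).encard + 1 < (k : ℕ∞)
      · rw [if_pos h]
        exact ⟨(step _ ih.1 h).1, (step _ ih.1 h).2.1⟩
      · rw [if_neg h]
        exact ih
  intro j
  refine ⟨(main j).1, (main j).2, ?_⟩
  by_cases h : (top G ρ k K j).encard + 1 < (k : ℕ∞)
  · have e : top G ρ k K (j + 1) = nxt G ρ K (top G ρ k K j) := by
      simp only [top]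
      rw [if_pos h]
    rw [e]
    exact (step _ (main j).1 h).2.2
  · have e : top G ρ k K (j + 1) = top G ρ k K j := by
      simp only [top]
      rw [if_neg h]
    rw [e]

end Pool.Agent.Lib.MPbafc89.KE
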