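import Pool.Agent.Lib.MP_bafc89_co.KE.Spec

/-!
# MP_bafc89_co, KE, module LFT: clique minor systems of the quotient lift
-/

set_option autoImplicit false

namespace Pool.Agent.Lib.MPbafc89.KE

open SimpleGraph
open Pool.Agent.Lib.MPbafc89.BQ (Jn Cn)

universe u v

theorem specLFT : SpecLFT.{u} := by
  intro V G s hs
  refine ⟨?_, ?_, ?_⟩
  · intro D hD
    have h := BQ.Cn.map (G := G) (Φ := fun a : Quotient s => {x : V | Quotient.mk s x = a}) hD
      (by
        intro a _
        obtain ⟨x, hx⟩ := Quotient.exists_rep a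
        refine cn_of_clique ⟨x, hx⟩ ?_
        intro y hy z hz hyz
        have hy' : Quotient.mk s y = a := hy
        have hz' : Quotient.mk s z = a := hz
        exact hs y z (Quotient.exact (hy'.trans hz'.symm)) hyz)
      (by
        rintro a _ b _ ⟨_, x, y, hx, hy, hxy⟩
        exact ⟨x, hx, y, hy, Or.inr hxy⟩)
    have e : {x : V | ∃ a ∈ D, x ∈ {x : V | Quotient.mk s x = a}} = Quotient.mk s ⁻¹' D := by
      ext x
      constructor
      · rintro ⟨a, ha, hx⟩
        have hx' : Quotient.mk s x = a := hx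
        show Quotient.mk s x ∈ D
        rw [hx']
        exact ha
      · intro hx
        exact ⟨Quotient.mk s x, hx, rfl⟩
    rw [← e]
    exact h
  · rintro P Q ⟨a, ha, b, hb, _, x, y, hx, hy, hxy⟩
    refine ⟨x, ?_, y, ?_, hxy⟩
    · show Quotient.mk s x ∈ P
      rw [hx]
      exact ha
    · show Quotient.mk s y ∈ Q
      rw [hy]
      exact hb
  · rintro P Q hPQ ⟨x, hx, y, hy, hxy⟩
    refine ⟨Quotient.mk s x, hx, Quotient.mk s y, hy, ?_, x, y, rfl, rfl, hxy⟩
    intro heq
    have hx' : Quotient.mk s x ∈ P := hx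
    have hy' : Quotient.mk s y ∈ Q := hy
    rw [heq] at hx'
    exact Set.disjoint_left.1 hPQ hx' hy'

end Pool.Agent.Lib.MPbafc89.KE
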