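import Pool.Agent.Lib.MP_bafc89_co.KE.Spec

/-!
# MP_bafc89_co, module LMA: part (A) for finite branch sets
-/

set_option autoImplicit false

namespace Pool.Agent.Lib.MPbafc89.KE

open SimpleGraph
open Pool.Agent.Lib.MPbafc89.BQ (Jn Cn)

universe u

namespace LMAM

/-- replacing a branch set by a smaller one -/
theorem upd {V : Type u} {G : SimpleGraph V} {m : ℕ} {B : Fin m → Set V} (h : KM G B)
    (o : Fin m) (Y : Set V) (hY : Y ⊆ B o) (hcn : Cn G Y)
    (ht : ∀ i, i ≠ o → Tch G Y (B i)) : KM G (Function.update B o Y) := by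
  have h0 : Function.update B o Y o = Y := Function.update_self o Y B
  have h1 : ∀ i, i ≠ o → Function.update B o Y i = B i := fun i hi =>
    Function.update_of_ne hi Y B
  refine ⟨?_, ?_, ?_⟩
  · intro i
    by_cases hi : i = o
    · rw [hi, h0]
      exact hcn
    · rw [h1 i hi]
      exact h.cn i
  · intro i j hij
    by_cases hi : i = o
    · have hj : j ≠ o := fun hj => hij (hi.trans hj.symm)
      rw [hi, h0, h1 j hj]
      exact (h.dis o j (Ne.symm hj)).mono_left hY
    · rw [h1 i hi]
      by_cases hj : j = o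
      · rw [hj, h0]
        exact (h.dis i o hi).mono_right hY
      · rw [h1 j hj]
        exact h.dis i j hij
  · intro i j hij
    by_cases hi : i = o
    · have hj : j ≠ o := fun hj => hij (hi.trans hj.symm)
      rw [hi, h0, h1 j hj]
      exact ht j hj
    · rw [h1 i hi]
      by_cases hj : j = o
      · rw [hj, h0]
        exact (ht i hi).symm
      · rw [h1 j hj]
        exact h.tch i j hij

theorem sum_lt {V : Type u} {m : ℕ} {B : Fin m → Set V} (hfin : ∀ i, (B i).Finite)
    (o : Fin m) (Y : Set V) (hY : Y ⊂ B o) :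
    ∑ i, (Function.update B o Y i).ncard < ∑ i, (B i).ncard := by
  refine Finset.sum_lt_sum ?_ ⟨o, Finset.mem_univ o, ?_⟩
  · intro i _
    by_cases hi : i = o
    · rw [hi, Function.update_self]
      exact Set.ncard_le_ncard hY.1 (hfin o)
    · rw [Function.update_of_ne hi]
  · rw [Function.update_self]
    exact Set.ncard_lt_ncard hY (hfin o)

theorem sub {V : Type u} {m : ℕ} {B : Fin m → Set V} (o : Fin m) (Y : Set V) (hY : Y ⊆ B o)
    (i : Fin m) : Function.update B o Y i ⊆ B i := by
  by_cases hi : i = o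
  · rw [hi, Function.update_self]
    exact hY
  · rw [Function.update_of_ne hi]

end LMAM

open LMAM in
theorem specLMA (hNCV : SpecNCV.{u}) (hSTP : SpecSTP.{u}) : SpecLMA.{u} := by
  intro V G k m hNo hk hkm h2k
  have key : ∀ N : ℕ, ∀ B : Fin m → Set V, KM G B → (∀ i, (B i).Finite) →
      ∑ i, (B i).ncard = N →
      ∃ b : Fin m → V, (∀ i, b i ∈ B i) ∧ ∀ i j, i ≠ j → G.Adj (b i) (b j) := by
    intro N
    induction N using Nat.strong_induction_on with
    | _ N ih =>
      intro B hB hfin hN
      -- a smaller branch set is enough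
      have red : ∀ (o : Fin m) (Y : Set V), Y ⊂ B o → Cn G Y →
          (∀ i, i ≠ o → Tch G Y (B i)) →
          ∃ b : Fin m → V, (∀ i, b i ∈ B i) ∧ ∀ i j, i ≠ j → G.Adj (b i) (b j) := by
        intro o Y hY hcn ht
        have hlt := sum_lt hfin o Y hY
        rw [hN] at hlt
        obtain ⟨b, hb1, hb2⟩ := ih _ hlt (Function.update B o Y) (upd hB o Y hY.1 hcn ht)
          (fun i => (hfin i).subset (sub o Y hY.1 i)) rfl
        exact ⟨b, fun i => sub o Y hY.1 i (hb1 i), hb2⟩
      by_cases hall : ∃ o, (B o).Nontrivial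
      · obtain ⟨o, ho⟩ := hall
        obtain ⟨v, hv, hcnX, x, hx, hadj⟩ := hNCV V G (B o) (hB.cn o) (hfin o) ho
        have hvX : v ∉ B o \ {v} := fun h => h.2 rfl
        have hBo : B o = insert v (B o \ {v}) := by
          rw [Set.insert_diff_singleton, Set.insert_eq_of_mem hv]
        by_cases h1 : ∀ i, i ≠ o → Tch G {v} (B i)
        · refine red o {v} ⟨Set.singleton_subset_iff.mpr hv, fun h => ?_⟩ (Cn.singleton v) h1
          exact hx.2 (h hx.1)
        · by_cases h2 : ∀ i, i ≠ o → Tch G (B o \ {v}) (B i)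
          · exact red o (B o \ {v}) ⟨Set.diff_subset, fun h => hvX (h hv)⟩ hcnX h2
          · push Not at h1 h2
            exact (hSTP V G k m hNo hk hkm h2k B hB o v (B o \ {v}) hBo hvX hcnX
              ⟨x, hx, hadj⟩ h1 h2).elim
      · push Not at hall
        choose b hb using fun i => (hB.cn i).1
        refine ⟨b, hb, fun i j hij => ?_⟩
        obtain ⟨x, hx, y, hy, hxy⟩ := hB.tch i j hij
        have h1 : x = b i := hall i hx (hb i)
        have h2 : y = b j := hall j hy (hb j)
        rw [← h1, ← h2]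
        exact hxy
  intro B hB hfin
  exact key _ B hB hfin rfl

end Pool.Agent.Lib.MPbafc89.KE
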