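import Pool.Agent.Lib.MP_bafc89_co.KE.Spec

/-!
# LMB: a connected set off a big clique has few neighbours in it
-/

set_option autoImplicit false

namespace Pool.Agent.Lib.MPbafc89.KE

open SimpleGraph
open Pool.Agent.Lib.MPbafc89.BQ (Jn Cn)

universe u v

namespace LMBM

variable {V : Type u} {G : SimpleGraph V}

theorem exists_finset {S : Set V} {n : ℕ} (h : (n : ℕ∞) ≤ S.encard) :
    ∃ F : Finset V, (∀ x ∈ F, x ∈ S) ∧ F.card = n := by
  obtain ⟨t, ht, hc⟩ := Set.exists_subset_encard_eq h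
  have hf : t.Finite := Set.finite_of_encard_eq_coe hc
  refine ⟨hf.toFinset, fun x hx => ht (hf.mem_toFinset.mp hx), ?_⟩
  have h1 := hf.encard_eq_coe_toFinset_card
  rw [hc] at h1
  exact_mod_cast h1.symm

theorem tch_of_adj {x y : V} (h : G.Adj x y) : Tch G {x} {y} :=
  ⟨x, Set.mem_singleton x, y, Set.mem_singleton y, h⟩

theorem disj_of_ne {x y : V} (h : x ≠ y) : Disjoint ({x} : Set V) {y} := by
  rw [Set.disjoint_singleton]
  exact h

theorem adj_of_tch {x y : V} (h : Tch G {x} {y}) : G.Adj x y := by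
  obtain ⟨a, ha, b, hb, hab⟩ := h
  rw [Set.mem_singleton_iff] at ha hb
  rw [← ha, ← hb]
  exact hab

/-- two connected sets off a finset of a clique, attached to all its elements, touch -/
theorem use_clique {k : ℕ} (h : NoE G k) {K : Set V}
    (hK : ∀ x ∈ K, ∀ y ∈ K, x ≠ y → G.Adj x y) (S : Finset V) (hS : k ≤ S.card)
    (hSK : ∀ s ∈ S, s ∈ K) {P Q : Set V} (hP : Cn G P) (hQ : Cn G Q) (hPQ : Disjoint P Q)
    (hPC : ∀ s ∈ S, Disjoint P {s}) (hQC : ∀ s ∈ S, Disjoint Q {s})
    (hPt : ∀ s ∈ S, Tch G P {s}) (hQt : ∀ s ∈ S, Tch G Q {s}) : Tch G P Q :=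
  h.use S hS (fun s => {s}) hP hQ hPQ (fun s _ => BQ.Cn.singleton s)
    (fun _ _ _ _ hst => disj_of_ne hst)
    (fun s hs t ht hst => tch_of_adj (hK s (hSK s hs) t (hSK t ht) hst)) hPC hQC hPt hQt

end LMBM

open LMBM in
/-- **LMB** -/
theorem specLMB (hTRV : SpecTRV.{u}) : SpecLMB.{u} := by
  intro V G k m hno hk hkm h2k K C hK hC hCK
  by_contra hcon
  have hcon := not_lt.mp hcon
  set N : Set V := {z | z ∈ K ∧ ∃ c ∈ C, G.Adj c z} with hN
  have hCne : ∀ c ∈ C, ∀ x ∈ K, c ≠ x := fun c hc x hx h =>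
    Set.disjoint_left.mp hCK hc (h ▸ hx)
  have hdC : ∀ x ∈ K, Disjoint C {x} := fun x hx => by
    rw [Set.disjoint_singleton_right]
    exact fun h => hCne x h x hx rfl
  -- (a)
  have hall : ∀ x ∈ K, x ∈ N := by
    intro x hx
    by_contra hxN
    obtain ⟨S, hSN, hSc⟩ := exists_finset hcon
    have hSK : ∀ s ∈ S, s ∈ K := fun s hs => (hSN s hs).1
    have hne : ∀ s ∈ S, x ≠ s := fun s hs h => hxN (h ▸ hSN s hs)
    have ht := use_clique hno hK.clq S hSc.ge hSK hC (BQ.Cn.singleton x) (hdC x hx)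
      (fun s hs => hdC s (hSK s hs)) (fun s hs => disj_of_ne (hne s hs))
      (fun s hs => by
        obtain ⟨c, hc, hcs⟩ := (hSN s hs).2
        exact ⟨c, hc, s, Set.mem_singleton s, hcs⟩)
      (fun s hs => tch_of_adj (hK.clq x hx s (hSK s hs) (hne s hs)))
    obtain ⟨c, hc, y, hy, hcy⟩ := ht
    rw [Set.mem_singleton_iff] at hy
    exact hxN ⟨hx, c, hc, hy ▸ hcy⟩
  -- (b)
  obtain ⟨m', rfl⟩ : ∃ m', m = m' + 1 := ⟨m - 1, by omega⟩
  have hm' : (m' : ℕ∞) ≤ K.encard := by
    refine le_trans ?_ hK.big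
    exact_mod_cast Nat.le_succ m'
  obtain ⟨S, hSK, hSc⟩ := exists_finset hm'
  have e : Fin m' ≃ S := (Fintype.equivFinOfCardEq (by simpa using hSc)).symm
  set g : Fin m' → V := fun i => ((e i : S) : V) with hg
  have hgS : ∀ i, g i ∈ S := fun i => (e i).2
  have hgK : ∀ i, g i ∈ K := fun i => hSK _ (hgS i)
  have hgi : ∀ i j, i ≠ j → g i ≠ g j := fun i j hij h => hij (e.injective (Subtype.ext h))
  have hgs : ∀ s ∈ S, ∃ i, g i = s := fun s hs => by
    obtain ⟨i, hi⟩ := e.surjective ⟨s, hs⟩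
    exact ⟨i, congrArg Subtype.val hi⟩
  set B : Fin (m' + 1) → Set V := Fin.cons C (fun i => {g i}) with hB
  have hB0 : B 0 = C := by rw [hB, Fin.cons_zero]
  have hBs : ∀ i : Fin m', B i.succ = {g i} := fun i => by rw [hB, Fin.cons_succ]
  have hadj : ∀ i, Tch G C {g i} := fun i => by
    obtain ⟨c, hc, hcs⟩ := (hall _ (hgK i)).2
    exact ⟨c, hc, g i, Set.mem_singleton _, hcs⟩
  have hKM : KM G B := by
    refine ⟨fun i => ?_, fun i j hij => ?_, fun i j hij => ?_⟩
    · refine Fin.cases ?_ (fun i => ?_) i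
      · rw [hB0]; exact hC
      · rw [hBs]; exact BQ.Cn.singleton _
    · induction i using Fin.cases with
      | zero =>
        induction j using Fin.cases with
        | zero => exact absurd rfl hij
        | succ j => rw [hB0, hBs]; exact hdC _ (hgK j)
      | succ i =>
        induction j using Fin.cases with
        | zero => rw [hB0, hBs]; exact (hdC _ (hgK i)).symm
        | succ j =>
          rw [hBs, hBs]
          exact disj_of_ne (hgi i j fun h => hij (by rw [h]))
    · induction i using Fin.cases with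
      | zero =>
        induction j using Fin.cases with
        | zero => exact absurd rfl hij
        | succ j => rw [hB0, hBs]; exact hadj j
      | succ i =>
        induction j using Fin.cases with
        | zero => rw [hB0, hBs]; exact (hadj i).symm
        | succ j =>
          rw [hBs, hBs]
          exact tch_of_adj (hK.clq _ (hgK i) _ (hgK j) (hgi i j fun h => hij (by rw [h])))
  obtain ⟨b, hb, hbadj⟩ := hTRV V G k (m' + 1) hno hk hkm h2k B hKM
  have hc0 : b 0 ∈ C := by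
    have := hb 0
    rwa [hB0] at this
  have hcg : ∀ i, G.Adj (b 0) (g i) := by
    intro i
    have h1 := hb i.succ
    rw [hBs, Set.mem_singleton_iff] at h1
    have h2 := hbadj 0 i.succ (Fin.succ_ne_zero i).symm
    rwa [h1] at h2
  have hcS : ∀ s ∈ S, G.Adj (b 0) s := fun s hs => by
    obtain ⟨i, rfl⟩ := hgs s hs
    exact hcg i
  have hcK : b 0 ∉ K := fun h => hCne _ hc0 _ h rfl
  obtain ⟨x, hxK, hx⟩ := hK.max _ hcK
  have hxS : ∀ s ∈ S, x ≠ s := fun s hs h => hx (h ▸ hcS s hs)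
  have ht := use_clique hno hK.clq S (by omega) hSK (BQ.Cn.singleton (b 0)) (BQ.Cn.singleton x)
    (disj_of_ne (hCne _ hc0 x hxK)) (fun s hs => disj_of_ne (hCne _ hc0 s (hSK s hs)))
    (fun s hs => disj_of_ne (hxS s hs)) (fun s hs => tch_of_adj (hcS s hs))
    (fun s hs => tch_of_adj (hK.clq x hxK s (hSK s hs) (hxS s hs)))
  exact hx (adj_of_tch ht)

end Pool.Agent.Lib.MPbafc89.KE
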