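import Pool.Agent.Lib.MP_bafc89_co.KE.Spec

/-! MAI: the main theorem in the language of the specification. -/

set_option autoImplicit false

namespace Pool.Agent.Lib.MPbafc89.KE

open SimpleGraph

universe u

namespace MAIM

lemma exists_rooting {V : Type u} [Nonempty V] (G : SimpleGraph V) :
    ∃ ρ : Set V → Set V → V, Rooting G ρ := by
  classical
  refine ⟨fun X D => if h : ∃ r ∈ D, ∀ x ∈ X, G.Adj r x then h.choose else Classical.arbitrary V,
    ?_⟩
  intro X D h
  simp only [dif_pos h]
  exact h.choose_spec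

lemma quotient {V : Type u} (G : SimpleGraph V) (s : Setoid V) (hs : Ccl G s) :
    CliqueQuotient G (qg G s) (Quotient.mk s) where
  surj := Quotient.mk_surjective
  fib := fun x y h hxy => hs x y (Quotient.exact h) hxy
  adj := fun _ _ => Iff.rfl

lemma trivial_case {V : Type u} [IsEmpty V] (G : SimpleGraph V) :
    CliqueQuotient G G (id : V → V) where
  surj := Function.surjective_id
  fib := fun x => isEmptyElim x
  adj := fun x => isEmptyElim x

end MAIM

open MAIM in
/-- The main theorem. -/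
theorem specMAI (hINV : SpecINV.{u}) (hUNI : SpecUNI.{u}) (hSET : SpecSET.{u})
    (hNMI : SpecNMI.{u}) (hQNO : SpecQNO.{u}) (hQIL : SpecQIL.{u}) : SpecMAI.{u} := by
  intro V G k m hG hk hkm hkm2
  rcases isEmpty_or_nonempty V with hV | hV
  · refine ⟨V, G, id, trivial_case G, fun x => isEmptyElim x, fun x => isEmptyElim x, hG, ?_⟩
    intro B hB
    obtain ⟨x, _⟩ := (hB.cn ⟨0, by omega⟩).1
    exact isEmptyElim x
  · obtain ⟨ρ, hρ⟩ := exists_rooting G
    obtain ⟨s, hs, hcl⟩ := hSET V G k m hkm (fun K => top G ρ k K k)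
      (fun K hK => (hINV V G k m hG hk hkm hkm2 ρ hρ K hK k).2.1)
      (fun K K' v hK hK' hKK' hv hv' => hUNI V G k m hG hk hkm hkm2 ρ hρ K K' hK hK' hKK' v hv hv')
    exact ⟨Quotient s, qg G s, Quotient.mk s, quotient G s hs,
      fun x y => (hQIL V G s hs x y).1, fun x y => (hQIL V G s hs x y).2,
      hQNO V G k s hs hG, hNMI V G k m hG hk hkm hkm2 s hs hcl⟩

end Pool.Agent.Lib.MPbafc89.KE
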