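import Pool.Agent.Lib.MP_bafc89_co.KE.Spec

/-! MP_bafc89_co, module MNI: `NoE G k` is the exclusion of the induced minor `K_(k+2)` minus an
edge (helper74). -/

set_option autoImplicit false

namespace Pool.Agent.Lib.MPbafc89.KE

open SimpleGraph
open Pool.Agent.Lib.MPbafc89.BQ (Jn Cn cn_iff)

universe u v

namespace MNIM

/-- the vertices other than `a`, `b` are numbered by `Fin k` -/
theorem exists_equiv {α : Type v} {k : ℕ} (hf : Finite α) (h : Nat.card α = k + 2) {a b : α}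
    (hab : a ≠ b) : Nonempty ({x : α // x ≠ a ∧ x ≠ b} ≃ Fin k) := by
  classical
  have := Fintype.ofFinite α
  have h1 : Fintype.card α = k + 2 := by rw [← Nat.card_eq_fintype_card]; exact h
  have h2 : Fintype.card {x : α // x ≠ a ∧ x ≠ b} = k := by
    rw [Fintype.card_subtype]
    have h3 : (Finset.univ.filter (fun x : α => x ≠ a ∧ x ≠ b)) =
        (Finset.univ.erase a).erase b := by
      ext x
      simp only [Finset.mem_filter, Finset.mem_univ, true_and, Finset.mem_erase, and_true]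
      tauto
    rw [h3, Finset.card_erase_of_mem (by simp [hab.symm]),
      Finset.card_erase_of_mem (Finset.mem_univ a), Finset.card_univ, h1]
    omega
  exact ⟨Fintype.equivFinOfCardEq h2⟩

open Classical in
/-- the branch sets -/
noncomputable def br {α : Type v} {V : Type u} {k : ℕ} (a b : α)
    (e : {x : α // x ≠ a ∧ x ≠ b} ≃ Fin k) (P Q : Set V) (B : Fin k → Set V) (x : α) : Set V :=
  if hx : x ≠ a ∧ x ≠ b then B (e ⟨x, hx⟩) else if x = a then P else Q

theorem br_a {α : Type v} {V : Type u} {k : ℕ} (a b : α)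
    (e : {x : α // x ≠ a ∧ x ≠ b} ≃ Fin k) (P Q : Set V) (B : Fin k → Set V) :
    br a b e P Q B a = P := by
  unfold br
  rw [dif_neg (fun h => h.1 rfl), if_pos rfl]

theorem br_b {α : Type v} {V : Type u} {k : ℕ} {a b : α} (hab : a ≠ b)
    (e : {x : α // x ≠ a ∧ x ≠ b} ≃ Fin k) (P Q : Set V) (B : Fin k → Set V) :
    br a b e P Q B b = Q := by
  unfold br
  rw [dif_neg (fun h => h.2 rfl), if_neg hab.symm]

theorem br_o {α : Type v} {V : Type u} {k : ℕ} (a b : α)
    (e : {x : α // x ≠ a ∧ x ≠ b} ≃ Fin k) (P Q : Set V) (B : Fin k → Set V) {x : α}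
    (hx : x ≠ a ∧ x ≠ b) : br a b e P Q B x = B (e ⟨x, hx⟩) := by
  unfold br
  rw [dif_pos hx]

/-- an arbitrary vertex is `a`, `b` or one of the others -/
theorem cases3 {α : Type v} (a b x : α) : x = a ∨ x = b ∨ (x ≠ a ∧ x ≠ b) := by tauto

theorem minor_of_not {V : Type u} {G : SimpleGraph V} {k : ℕ} {α : Type v} {H : SimpleGraph α}
    {a b : α} (hab : a ≠ b)
    (hH : ∀ x y, H.Adj x y ↔ x ≠ y ∧ ¬ (x = a ∧ y = b) ∧ ¬ (x = b ∧ y = a))
    (e : {x : α // x ≠ a ∧ x ≠ b} ≃ Fin k) {P Q : Set V} {B : Fin k → Set V}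
    (hP : Cn G P) (hQ : Cn G Q) (hPQ : Disjoint P Q) (hB : KM G B)
    (hPB : ∀ i, Disjoint P (B i)) (hQB : ∀ i, Disjoint Q (B i))
    (tPB : ∀ i, Tch G P (B i)) (tQB : ∀ i, Tch G Q (B i)) (hn : ¬ Tch G P Q) :
    IsInducedMinor H G := by
  have hne : ∀ {x y : α} (hx : x ≠ a ∧ x ≠ b) (hy : y ≠ a ∧ y ≠ b), x ≠ y →
      e ⟨x, hx⟩ ≠ e ⟨y, hy⟩ := by
    intro x y hx hy hxy h
    exact hxy (congrArg Subtype.val (e.injective h))
  refine ⟨br a b e P Q B, ?_, ?_, ?_⟩
  · intro x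
    rw [← cn_iff]
    rcases cases3 a b x with rfl | rfl | hx
    · rw [br_a]; exact hP
    · rw [br_b hab]; exact hQ
    · rw [br_o a b e P Q B hx]; exact hB.cn _
  · intro x y hxy
    rcases cases3 a b x with hx | hx | hx
    · rcases cases3 a b y with hy | hy | hy
      · exact absurd (hx.trans hy.symm) hxy
      · rw [hx, hy, br_a, br_b hab]; exact hPQ
      · rw [hx, br_a, br_o a b e P Q B hy]; exact hPB _
    · rcases cases3 a b y with hy | hy | hy
      · rw [hx, hy, br_a, br_b hab]; exact hPQ.symm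
      · exact absurd (hx.trans hy.symm) hxy
      · rw [hx, br_b hab, br_o a b e P Q B hy]; exact hQB _
    · rcases cases3 a b y with hy | hy | hy
      · rw [hy, br_a, br_o a b e P Q B hx]; exact (hPB _).symm
      · rw [hy, br_b hab, br_o a b e P Q B hx]; exact (hQB _).symm
      · rw [br_o a b e P Q B hx, br_o a b e P Q B hy]; exact hB.dis _ _ (hne hx hy hxy)
  · intro x y hxy
    rw [hH]
    change _ ↔ Tch G (br a b e P Q B x) (br a b e P Q B y)
    rcases cases3 a b x with hx | hx | hx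
    · rcases cases3 a b y with hy | hy | hy
      · exact absurd (hx.trans hy.symm) hxy
      · rw [hx, hy, br_a, br_b hab]
        exact ⟨fun h => absurd ⟨rfl, rfl⟩ h.2.1, fun h => absurd h hn⟩
      · rw [hx, br_a, br_o a b e P Q B hy]
        exact ⟨fun _ => tPB _, fun _ => ⟨fun h => hy.1 h.symm, fun h => hy.2 h.2,
          fun h => hab h.1⟩⟩
    · rcases cases3 a b y with hy | hy | hy
      · rw [hx, hy, br_a, br_b hab]
        exact ⟨fun h => absurd ⟨rfl, rfl⟩ h.2.2, fun h => absurd h.symm hn⟩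
      · exact absurd (hx.trans hy.symm) hxy
      · rw [hx, br_b hab, br_o a b e P Q B hy]
        exact ⟨fun _ => tQB _, fun _ => ⟨fun h => hy.2 h.symm, fun h => hab h.1.symm,
          fun h => hy.1 h.2⟩⟩
    · rcases cases3 a b y with hy | hy | hy
      · rw [hy, br_a, br_o a b e P Q B hx]
        exact ⟨fun _ => (tPB _).symm, fun _ => ⟨hx.1, fun h => hx.1 h.1, fun h => hx.2 h.1⟩⟩
      · rw [hy, br_b hab, br_o a b e P Q B hx]
        exact ⟨fun _ => (tQB _).symm, fun _ => ⟨hx.2, fun h => hx.1 h.1, fun h => hx.2 h.1⟩⟩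
      · rw [br_o a b e P Q B hx, br_o a b e P Q B hy]
        exact ⟨fun _ => hB.tch _ _ (hne hx hy hxy), fun _ => ⟨hxy, fun h => hx.1 h.1,
          fun h => hx.2 h.1⟩⟩

end MNIM

theorem specMNI : SpecMNI.{u, v} := by
  intro V G k α H hH
  obtain ⟨hf, hc, a, b, hab, hadj⟩ := hH
  obtain ⟨e⟩ := MNIM.exists_equiv hf hc hab
  constructor
  · rintro hN ⟨C, hcn, hdis, htch⟩
    have h1 : ∀ i : Fin k, ((e.symm i : {x : α // x ≠ a ∧ x ≠ b}) : α) ≠ a ∧
        ((e.symm i : {x : α // x ≠ a ∧ x ≠ b}) : α) ≠ b := fun i => (e.symm i).2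
    have h2 : ∀ i j : Fin k, i ≠ j →
        ((e.symm i : {x : α // x ≠ a ∧ x ≠ b}) : α) ≠ (e.symm j : {x : α // x ≠ a ∧ x ≠ b}) :=
      fun i j hij h => hij (e.symm.injective (Subtype.ext h))
    have h3 : ∀ x y : α, x ≠ y → ¬ (x = a ∧ y = b) → ¬ (x = b ∧ y = a) → Tch G (C x) (C y) := by
      intro x y hxy hx hy
      exact (htch x y hxy).1 ((hadj x y).2 ⟨hxy, hx, hy⟩)
    have h4 : Tch G (C a) (C b) := by
      refine hN (C a) (C b) (fun i => C (e.symm i : {x : α // x ≠ a ∧ x ≠ b}))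
        (cn_iff.2 (hcn a)) (cn_iff.2 (hcn b)) (hdis a b hab) ?_ ?_ ?_ ?_ ?_
      · refine ⟨fun i => cn_iff.2 (hcn _), fun i j hij => hdis _ _ (h2 i j hij), fun i j hij => ?_⟩
        exact h3 _ _ (h2 i j hij) (fun h => (h1 i).1 h.1) (fun h => (h1 i).2 h.1)
      · exact fun i => hdis _ _ (h1 i).1.symm
      · exact fun i => hdis _ _ (h1 i).2.symm
      · exact fun i => h3 _ _ (h1 i).1.symm (fun h => (h1 i).2 h.2) (fun h => hab h.1)
      · exact fun i => h3 _ _ (h1 i).2.symm (fun h => hab h.1.symm) (fun h => (h1 i).1 h.2)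
    exact ((hadj a b).1 ((htch a b hab).2 h4)).2.1 ⟨rfl, rfl⟩
  · intro hM
    by_contra hN
    unfold NoE at hN
    push Not at hN
    obtain ⟨P, Q, B, hP, hQ, hPQ, hB, hPB, hQB, tPB, tQB, hn⟩ := hN
    exact hM (MNIM.minor_of_not hab hadj e hP hQ hPQ hB hPB hQB tPB tQB hn)

end Pool.Agent.Lib.MPbafc89.KE
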