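import Pool.Agent.Lib.MP_bafc89_co.KE.Spec

/-!
# MNM: minors and the complete graph minus an edge
-/

set_option autoImplicit false

namespace Pool.Agent.Lib.MPbafc89.KE

open SimpleGraph
open Pool.Agent.Lib.MPbafc89.BQ (Jn Cn)

universe u v

theorem specMNM : SpecMNM.{u, v} := by
  classical
  intro V G k α H hH hNoE hM
  obtain ⟨hfin, hcard, a, b, hab, hadj⟩ := hH
  obtain ⟨C, hC, hdis, htch⟩ := hM
  haveI := hfin
  haveI : Fintype α := Fintype.ofFinite α
  have hcardF : Fintype.card α = k + 2 := by rw [← Nat.card_eq_fintype_card, hcard]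
  have hcard2 : Fintype.card {x : α // x ≠ a ∧ x ≠ b} = k := by
    have h1 : Fintype.card {x : α // x ≠ a ∧ x ≠ b} =
        (Finset.univ.filter fun x : α => x ≠ a ∧ x ≠ b).card := Fintype.card_subtype _
    have h2 : (Finset.univ.filter fun x : α => x ≠ a ∧ x ≠ b) = Finset.univ \ {a, b} := by
      ext x
      simp [not_or]
    rw [h1, h2, Finset.card_sdiff_of_subset (Finset.subset_univ _), Finset.card_univ, hcardF,
      Finset.card_pair hab]
    omega
  have e : {x : α // x ≠ a ∧ x ≠ b} ≃ Fin k := Fintype.equivFinOfCardEq hcard2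
  have hT : ∀ x y : α, x ≠ y → H.Adj x y → Tch G (C x) (C y) := fun x y _ h => htch x y h
  have hAdj : ∀ x y : α, x ≠ y → y ≠ a → y ≠ b → H.Adj x y := by
    intro x y hxy hya hyb
    rw [hadj]
    exact ⟨hxy, fun h => hyb h.2, fun h => hya h.2⟩
  have hcn : ∀ x, Cn G (C x) := fun x => BQ.cn_iff.2 (hC x)
  have hab' : Tch G (C a) (C b) := by
    refine hNoE (C a) (C b) (fun i => C (e.symm i)) (hcn a) (hcn b) (hdis a b hab)
      ⟨fun i => hcn _, fun i j hij => hdis _ _ ?_, fun i j hij => hT _ _ ?_ (hAdj _ _ ?_ ?_ ?_)⟩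
      (fun i => hdis _ _ (e.symm i).2.1.symm) (fun i => hdis _ _ (e.symm i).2.2.symm)
      (fun i => hT _ _ (e.symm i).2.1.symm (hAdj _ _ (e.symm i).2.1.symm (e.symm i).2.1
        (e.symm i).2.2))
      (fun i => hT _ _ (e.symm i).2.2.symm (hAdj _ _ (e.symm i).2.2.symm (e.symm i).2.1
        (e.symm i).2.2))
    · exact fun h => hij (e.symm.injective (Subtype.ext h))
    · exact fun h => hij (e.symm.injective (Subtype.ext h))
    · exact fun h => hij (e.symm.injective (Subtype.ext h))
    · exact (e.symm j).2.1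
    · exact (e.symm j).2.2
  have hall : ∀ x y : α, x ≠ y → Tch G (C x) (C y) := by
    intro x y hxy
    by_cases h1 : x = a ∧ y = b
    · rw [h1.1, h1.2]
      exact hab'
    · by_cases h2 : x = b ∧ y = a
      · rw [h2.1, h2.2]
        exact hab'.symm
      · exact htch x y ((hadj x y).2 ⟨hxy, h1, h2⟩)
  have e' : Fin (k + 2) ≃ α := (Fintype.equivFinOfCardEq hcardF).symm
  exact ⟨fun i => C (e' i), ⟨fun i => hcn _, fun i j hij => hdis _ _ (fun h => hij (e'.injective h)),
    fun i j hij => hall _ _ (fun h => hij (e'.injective h))⟩⟩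

end Pool.Agent.Lib.MPbafc89.KE
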