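import Pool.Agent.Lib.MP_bafc89_co.KE.Spec

/-!
# NCV: removing a vertex from a finite connected set
-/

set_option autoImplicit false

namespace Pool.Agent.Lib.MPbafc89.KE

open SimpleGraph
open Pool.Agent.Lib.MPbafc89.BQ (Jn Cn)

universe u v

namespace NCVM

lemma exists_walk_in {V : Type u} {G : SimpleGraph V} {S : Set V} {v : S}
    (h : ((G.induce S).induce {v}ᶜ).Connected) : Cn G (S \ {(v : V)}) := by
  have h0 := (BQ.cn_iff (G := G.induce S) (S := ({v}ᶜ : Set S))).2 h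
  refine ⟨?_, ?_⟩
  · obtain ⟨⟨x, hx⟩, hxv⟩ := h0.1
    refine ⟨x, hx, fun h1 => hxv ?_⟩
    rw [Set.mem_singleton_iff] at h1 ⊢
    exact Subtype.ext h1
  · rintro x ⟨hx, hxv⟩ y ⟨hy, hyv⟩
    have hx' : (⟨x, hx⟩ : S) ∈ ({v}ᶜ : Set S) := fun h1 => hxv (by
      rw [Set.mem_singleton_iff] at h1 ⊢
      rw [← h1])
    have hy' : (⟨y, hy⟩ : S) ∈ ({v}ᶜ : Set S) := fun h1 => hyv (by
      rw [Set.mem_singleton_iff] at h1 ⊢
      rw [← h1])
    have h1 := h0.2 _ hx' _ hy'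
    refine (h1.induct (fun z => Jn G (S \ {(v : V)}) x z) ?_ ?_ : _)
    · exact BQ.Jn.refl ⟨hx, hxv⟩
    · rintro ⟨a, ha⟩ ⟨b, hb⟩ haS hbS hab ih
      refine BQ.Jn.trans ih (BQ.Jn.adj ⟨ha, fun h2 => haS ?_⟩ ⟨hb, fun h2 => hbS ?_⟩ ?_)
      · rw [Set.mem_singleton_iff] at h2 ⊢
        exact Subtype.ext h2
      · rw [Set.mem_singleton_iff] at h2 ⊢
        exact Subtype.ext h2
      · simpa using hab

end NCVM

theorem specNCV : SpecNCV.{u} := by
  intro V G S hS hfin hnt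
  haveI : Finite S := hfin
  haveI : Nontrivial S := Set.nontrivial_coe_sort.2 hnt
  obtain ⟨v, hv⟩ :=
    (BQ.cn_iff.1 hS).exists_connected_induce_compl_singleton_of_finite_nontrivial
  have h1 : Cn G (S \ {(v : V)}) := NCVM.exists_walk_in hv
  refine ⟨v, v.2, h1, ?_⟩
  obtain ⟨x, hx⟩ := h1.1
  have h2 : Jn G S (v : V) x := hS.2 _ v.2 _ hx.1
  have h3 : x = (v : V) ∨ ∃ x ∈ S \ {(v : V)}, G.Adj v x := by
    refine h2.induct (fun z => z = (v : V) ∨ ∃ x ∈ S \ {(v : V)}, G.Adj v x) (Or.inl rfl) ?_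
    rintro a b ha hb hab (h | h)
    · right
      rw [h] at hab
      exact ⟨b, ⟨hb, fun h4 => by
        rw [Set.mem_singleton_iff] at h4
        rw [h4] at hab
        exact G.loopless.irrefl _ hab⟩, hab⟩
    · exact Or.inr h
  rcases h3 with h3 | h3
  · exact absurd h3 (fun h4 => hx.2 (by rw [Set.mem_singleton_iff]; exact h4))
  · exact h3

end Pool.Agent.Lib.MPbafc89.KE
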