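import Pool.Agent.Lib.MP_bafc89_co.KE.Spec

/-! # Module NMI: the quotient has no clique minor with `m` vertices. -/

set_option autoImplicit false

namespace Pool.Agent.Lib.MPbafc89.KE

open SimpleGraph
open Pool.Agent.Lib.MPbafc89.BQ (Jn Cn)

universe u

theorem specNMI (hTRV : SpecTRV.{u}) (hLFT : SpecLFT.{u}) (hQNO : SpecQNO.{u})
    (hZRN : SpecZRN.{u}) : SpecNMI.{u} := by
  intro V G k m hNoE hk hkm hm s hs hK B hB
  have hNoE' : NoE (qg G s) k := hQNO V G k s hs hNoE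
  obtain ⟨q, hq, hqadj⟩ := hTRV (Quotient s) (qg G s) k m hNoE' hk hkm hm B hB
  obtain ⟨h1, h2, h3⟩ := hLFT V G s hs
  have hKM : KM G (fun i : Fin m => Quotient.mk s ⁻¹' {q i}) := by
    refine ⟨fun i => h1 _ (Cn.singleton _), fun i j hij => ?_, fun i j hij => ?_⟩
    · rw [Set.disjoint_left]
      intro x hx hx'
      have e1 : Quotient.mk s x = q i := hx
      have e2 : Quotient.mk s x = q j := hx'
      exact (hqadj i j hij).ne (e1.symm.trans e2)
    · exact h2 _ _ ⟨q i, rfl, q j, rfl, hqadj i j hij⟩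
  obtain ⟨b, hb, hbadj⟩ := hTRV V G k m hNoE hk hkm hm _ hKM
  obtain ⟨K, hKbig, hbK⟩ := hZRN V G m b hbadj
  obtain ⟨i, j, hij, hsb⟩ := hK K b hKbig hbK
  have e1 : Quotient.mk s (b i) = q i := hb i
  have e2 : Quotient.mk s (b j) = q j := hb j
  have e3 : Quotient.mk s (b i) = Quotient.mk s (b j) := Quotient.sound hsb
  exact (hqadj i j hij).ne (e1.symm.trans (e3.trans e2))

end Pool.Agent.Lib.MPbafc89.KE
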