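import Pool.Agent.Lib.MP_bafc89_co.KE.Spec

/-!
# MP_bafc89_co, module QNO: the quotient has no induced minor `K_(k+2)` minus an edge
-/

set_option autoImplicit false

namespace Pool.Agent.Lib.MPbafc89.KE

open SimpleGraph
open Pool.Agent.Lib.MPbafc89.BQ (Jn Cn)

universe u

/-- Module QNO. -/
theorem specQNO (hLFT : SpecLFT.{u}) : SpecQNO.{u} := by
  intro V G k s hs hN P Q B hP hQ hPQ hB hPB hQB hPt hQt
  obtain ⟨l1, l2, l3⟩ := hLFT V G s hs
  refine l3 P Q hPQ ?_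
  refine hN _ _ (fun i => Quotient.mk s ⁻¹' B i) (l1 P hP) (l1 Q hQ) (hPQ.preimage _)
    ⟨fun i => l1 _ (hB.cn i), fun i j hij => (hB.dis i j hij).preimage _,
      fun i j hij => l2 _ _ (hB.tch i j hij)⟩
    (fun i => (hPB i).preimage _) (fun i => (hQB i).preimage _)
    (fun i => l2 _ _ (hPt i)) (fun i => l2 _ _ (hQt i))

end Pool.Agent.Lib.MPbafc89.KE
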