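import Pool.Agent.Lib.MP_bafc89_co.KE.Spec

/-!
# MP_bafc89_co, module SET: the equivalence relation
-/

set_option autoImplicit false

namespace Pool.Agent.Lib.MPbafc89.KE

universe u

/-- the equivalence relation: equality, or both in `K` outside `T K` for a big clique `K` -/
def SETM.rel {V : Type u} (G : SimpleGraph V) (m : ℕ) (T : Set V → Set V)
    (h : ∀ (K K' : Set V) (v : V), Big G m K → Big G m K' → K ≠ K' → v ∈ K → v ∈ K' →
      v ∈ T K ∨ v ∈ T K') : Setoid V where
  r x y := x = y ∨ ∃ K, Big G m K ∧ (x ∈ K ∧ x ∉ T K) ∧ (y ∈ K ∧ y ∉ T K)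
  iseqv := by
    refine ⟨fun x => Or.inl rfl, ?_, ?_⟩
    · rintro x y (h1 | ⟨K, hK, hx, hy⟩)
      · exact Or.inl h1.symm
      · exact Or.inr ⟨K, hK, hy, hx⟩
    · rintro x y z (h1 | ⟨K, hK, hx, hy⟩) (h2 | ⟨K', hK', hy', hz⟩)
      · exact Or.inl (h1.trans h2)
      · subst h1
        exact Or.inr ⟨K', hK', hy', hz⟩
      · subst h2
        exact Or.inr ⟨K, hK, hx, hy⟩
      · by_cases hKK : K = K'
        · subst hKK
          exact Or.inr ⟨K, hK, hx, hz⟩
        · rcases h K K' y hK hK' hKK hy.1 hy'.1 with h3 | h3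
          · exact absurd h3 hy.2
          · exact absurd h3 hy'.2

/-- an injective family of `m` points, less than `k` points of which (`k + 2 ≤ m`) lie in `T`, has
two different members outside `T` -/
theorem SETM.two {V : Type u} {k m : ℕ} (hkm : k + 2 ≤ m) (T : Set V)
    (hT : T.encard < (k : ℕ∞)) (b : Fin m → V) (hb : Function.Injective b) :
    ∃ i j, i ≠ j ∧ b i ∉ T ∧ b j ∉ T := by
  classical
  by_contra hcon
  have h1 : ((Finset.univ.filter fun i => b i ∉ T).card) ≤ 1 := by
    rw [Finset.card_le_one]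
    intro i hi j hj
    by_contra hij
    exact hcon ⟨i, j, hij, (Finset.mem_filter.1 hi).2, (Finset.mem_filter.1 hj).2⟩
  have h2 : (Finset.univ.filter fun i => b i ∈ T).card
      + (Finset.univ.filter fun i => b i ∉ T).card = m := by
    rw [Finset.card_filter_add_card_filter_not, Finset.card_univ, Fintype.card_fin]
  have h3 : (((Finset.univ.filter fun i => b i ∈ T).image b : Finset V) : Set V) ⊆ T := by
    intro x hx
    rw [Finset.mem_coe, Finset.mem_image] at hx
    obtain ⟨i, hi, rfl⟩ := hx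
    exact (Finset.mem_filter.1 hi).2
  have h4 := Set.encard_le_encard h3
  rw [Set.encard_coe_eq_coe_finsetCard, Finset.card_image_of_injective _ hb] at h4
  have h5 : (((Finset.univ.filter fun i => b i ∈ T).card : ℕ) : ℕ∞) < (k : ℕ∞) :=
    lt_of_le_of_lt h4 hT
  have h6 : (Finset.univ.filter fun i => b i ∈ T).card < k := by exact_mod_cast h5
  omega

theorem specSET : SpecSET.{u} := by
  intro V G k m hkm T hT h
  refine ⟨SETM.rel G m T h, ?_, ?_⟩
  · rintro x y (h1 | ⟨K, hK, hx, hy⟩) hxy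
    · exact absurd h1 hxy
    · exact hK.clq x hx.1 y hy.1 hxy
  · intro K b hK hbK
    by_cases hb : Function.Injective b
    · obtain ⟨i, j, hij, hi, hj⟩ := SETM.two hkm (T K) (hT K hK) b hb
      exact ⟨i, j, hij, Or.inr ⟨K, hK, ⟨hbK i, hi⟩, ⟨hbK j, hj⟩⟩⟩
    · obtain ⟨i, j, hij, hne⟩ := Function.not_injective_iff.1 hb
      exact ⟨i, j, hne, Or.inl hij⟩

end Pool.Agent.Lib.MPbafc89.KE
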