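import Pool.Agent.Lib.MP_bafc89_co.KE.Spec

/-! # Module SHR: branch sets can be made finite. -/

set_option autoImplicit false

namespace Pool.Agent.Lib.MPbafc89.KE

open SimpleGraph
open Pool.Agent.Lib.MPbafc89.BQ (Jn Cn)

universe u

namespace SHRM

variable {V : Type u} {G : SimpleGraph V}

open Classical in
theorem cn_support {x y : V} (w : G.Walk x y) : Cn G {z | z ∈ w.support} := by
  refine Cn.of_center (c := x) w.start_mem_support ?_
  intro z hz
  exact ⟨w.takeUntil z hz, fun t ht => w.support_takeUntil_subset_support hz ht⟩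

theorem finite_sub {S : Set V} (hS : Cn G S) (T : Set V) (hT : T.Finite) (hTS : T ⊆ S) :
    ∃ S' : Set V, Cn G S' ∧ S'.Finite ∧ T ⊆ S' ∧ S' ⊆ S := by
  obtain ⟨c, hc⟩ := hS.1
  have key : ∃ S' : Set V, c ∈ S' ∧ Cn G S' ∧ S'.Finite ∧ T ⊆ S' ∧ S' ⊆ S := by
    revert hTS
    refine Set.Finite.induction_on (motive := fun T _ => T ⊆ S →
      ∃ S' : Set V, c ∈ S' ∧ Cn G S' ∧ S'.Finite ∧ T ⊆ S' ∧ S' ⊆ S) T hT ?_ ?_
    · intro _
      exact ⟨{c}, rfl, Cn.singleton c, Set.finite_singleton c, Set.empty_subset _,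
        Set.singleton_subset_iff.mpr hc⟩
    · intro a T ha hT ih hTS
      obtain ⟨S', hcS, hcn, hfin, hsub, hle⟩ := ih fun x hx => hTS (Set.mem_insert_of_mem a hx)
      obtain ⟨w, hw⟩ := hS.2 c hc a (hTS (Set.mem_insert a T))
      refine ⟨S' ∪ {z | z ∈ w.support}, Or.inl hcS,
        Cn.union hcn (cn_support w) hcS w.start_mem_support,
        hfin.union w.support.finite_toSet, ?_, Set.union_subset hle fun z hz => hw z hz⟩
      rintro x (rfl | hx)
      · exact Or.inr w.end_mem_support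
      · exact Or.inl (hsub hx)
  obtain ⟨S', _, h⟩ := key
  exact ⟨S', h⟩

end SHRM

theorem specSHR : SpecSHR.{u} := by
  intro V G m B hB
  have h1 : ∀ i j : Fin m, ∃ p : V × V, i ≠ j → p.1 ∈ B i ∧ p.2 ∈ B j ∧ G.Adj p.1 p.2 := by
    intro i j
    by_cases hij : i = j
    · obtain ⟨c, _⟩ := (hB.cn i).1
      exact ⟨(c, c), fun h => absurd hij h⟩
    · obtain ⟨x, hx, y, hy, hxy⟩ := hB.tch i j hij
      exact ⟨(x, y), fun _ => ⟨hx, hy, hxy⟩⟩
  choose p hp using h1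
  have h2 : ∀ i : Fin m, ∃ S' : Set V, Cn G S' ∧ S'.Finite ∧
      {z | ∃ j, j ≠ i ∧ (z = (p i j).1 ∨ z = (p j i).2)} ⊆ S' ∧ S' ⊆ B i := by
    intro i
    refine SHRM.finite_sub (hB.cn i) _ ?_ ?_
    · refine ((Set.finite_range fun j => (p i j).1).union
        (Set.finite_range fun j => (p j i).2)).subset ?_
      rintro z ⟨j, _, rfl | rfl⟩
      · exact Or.inl ⟨j, rfl⟩
      · exact Or.inr ⟨j, rfl⟩
    · rintro z ⟨j, hji, rfl | rfl⟩
      · exact (hp i j hji.symm).1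
      · exact (hp j i hji).2.1
  choose B' h3 h4 h5 h6 using h2
  refine ⟨B', ⟨h3, fun i j hij => (hB.dis i j hij).mono (h6 i) (h6 j), fun i j hij => ?_⟩, h6, h4⟩
  exact ⟨(p i j).1, h5 i ⟨j, hij.symm, Or.inl rfl⟩, (p i j).2, h5 j ⟨i, hij, Or.inr rfl⟩,
    (hp i j hij).2.2⟩

end Pool.Agent.Lib.MPbafc89.KE
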