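import Pool.Agent.Lib.MP_bafc89_co.KE.Spec

/-! # Module STE: one step of the comparison of the tops of two cliques -/

set_option autoImplicit false

namespace Pool.Agent.Lib.MPbafc89.KE

open SimpleGraph
open Pool.Agent.Lib.MPbafc89.BQ (Jn Cn)

universe u

namespace STEM

variable {V : Type u} {G : SimpleGraph V}

lemma dom_eq {K X : Set V} {v : V} (hK : ∀ x ∈ K, ∀ y ∈ K, x ≠ y → G.Adj x y) (hv : v ∈ K)
    (hvX : v ∉ X) : Dom G X K = {y | Jn G Xᶜ v y} := by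
  ext y
  constructor
  · rintro ⟨x, ⟨hx, hxX⟩, hj⟩
    by_cases h : x = v
    · subst h; exact hj
    · exact (Jn.adj (G := G) (S := Xᶜ) hvX hxX (hK v hv x hx (Ne.symm h))).trans hj
  · intro h
    exact ⟨v, ⟨hv, hvX⟩, h⟩

lemma sha_sub {K K' : Set V} {v r : V} (hK : ∀ x ∈ K, ∀ y ∈ K, x ≠ y → G.Adj x y)
    (hK' : ∀ x ∈ K', ∀ y ∈ K', x ≠ y → G.Adj x y) (hv : v ∈ K) (hv' : v ∈ K') (hrK : r ∉ K)
    (hrK' : r ∉ K') (h1 : v ∉ Sha G K r) (h2 : v ∉ Sha G K' r) :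
    ∀ z ∈ Sha G K r, z ∈ K' ∧ z ∈ Sha G K' r := by
  rintro z ⟨hz, y, hj, hyz⟩
  have key : Jn G (Kᶜ ∩ K'ᶜ) r y := by
    refine hj.induct (fun b => Jn G (Kᶜ ∩ K'ᶜ) r b) (Jn.refl ⟨hrK, hrK'⟩) ?_
    intro a b ha hb hab hja
    by_cases hbK' : b ∈ K'
    · exfalso
      have hbv : b ≠ v := fun e => hb (e ▸ hv)
      have hjb : Jn G Kᶜ r b := (hja.mono Set.inter_subset_left).trans (Jn.adj ha hb hab)
      exact h1 ⟨hv, b, hjb, hK' b hbK' v hv' hbv⟩
    · exact hja.trans (Jn.adj hja.right ⟨hb, hbK'⟩ hab)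
  have key' : Jn G K'ᶜ r y := key.mono Set.inter_subset_right
  have hzK' : z ∈ K' := by
    by_contra hn
    have hzv : z ≠ v := fun e => hn (e ▸ hv')
    have h3 : Jn G K'ᶜ r z := key'.trans (Jn.adj key'.right hn hyz)
    exact h2 ⟨hv', z, h3, hK z hz v hv hzv⟩
  exact ⟨hzK', hzK', y, key', hyz⟩

end STEM

open STEM in
theorem specSTE : SpecSTE.{u} := by
  classical
  intro V G ρ hρ K K' X v hK hK' hv hv' hXK hXK' hvX h1 h2
  have hD : Dom G X K' = Dom G X K := by rw [dom_eq hK hv hvX, dom_eq hK' hv' hvX]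
  have hroot := hρ X (Dom G X K) ⟨v, by rw [dom_eq hK hv hvX]; exact Jn.refl hvX,
    fun x hx => hK v hv x (hXK hx) (fun e => hvX (e ▸ hx))⟩
  obtain ⟨r, hr⟩ : ∃ r, r = ρ X (Dom G X K) := ⟨_, rfl⟩
  rw [← hr] at hroot
  obtain ⟨hrD, hadj⟩ := hroot
  rw [dom_eq hK hv hvX] at hrD
  have hj : Jn G Xᶜ v r := hrD
  have hrX : r ∉ X := hj.right
  have e1 : nxt G ρ K X = if r ∈ K then insert r X else Sha G K r := by
    unfold nxt; rw [← hr]
  have e2 : nxt G ρ K' X = if r ∈ K' then insert r X else Sha G K' r := by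
    unfold nxt; rw [hD, ← hr]
  by_cases hrK : r ∈ K
  · by_cases hrK' : r ∈ K'
    · rw [e1, e2, if_pos hrK, if_pos hrK']
      refine ⟨rfl, Set.insert_subset hrK' hXK', Set.ssubset_insert hrX⟩
    · exfalso
      rw [e2, if_neg hrK'] at h2
      have hrv : r ≠ v := fun e => hrK' (e ▸ hv')
      exact h2 ⟨hv', r, Jn.refl hrK', hK r hrK v hv hrv⟩
  · by_cases hrK' : r ∈ K'
    · exfalso
      rw [e1, if_neg hrK] at h1
      have hrv : r ≠ v := fun e => hrK (e ▸ hv)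
      exact h1 ⟨hv, r, Jn.refl hrK, hK' r hrK' v hv' hrv⟩
    · rw [e1, if_neg hrK] at h1
      rw [e2, if_neg hrK'] at h2
      rw [e1, e2, if_neg hrK, if_neg hrK']
      have s1 := sha_sub hK hK' hv hv' hrK hrK' h1 h2
      have s2 := sha_sub hK' hK hv' hv hrK' hrK h2 h1
      have hsub : X ⊆ Sha G K r := fun x hx => ⟨hXK hx, r, Jn.refl hrK, hadj x hx⟩
      have hex : ∃ z ∈ Sha G K r, z ∉ X := by
        have := hj.symm.induct (fun b => Jn G Kᶜ r b ∨ ∃ z ∈ Sha G K r, z ∉ X)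
          (Or.inl (Jn.refl hrK)) (fun a b _ hb hab h => by
            rcases h with h | h
            · by_cases hbK : b ∈ K
              · exact Or.inr ⟨b, ⟨hbK, a, h, hab⟩, hb⟩
              · exact Or.inl (h.trans (Jn.adj h.right hbK hab))
            · exact Or.inr h)
        rcases this with h | h
        · exact absurd hv h.right
        · exact h
      refine ⟨Set.Subset.antisymm (fun z hz => (s1 z hz).2) (fun z hz => (s2 z hz).2),
        fun z hz => (s1 z hz).1, (Set.ssubset_iff_of_subset hsub).mpr hex⟩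

end Pool.Agent.Lib.MPbafc89.KE
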