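import Pool.Agent.Lib.MP_bafc89_co.KE.Spec

/-!
# MP_bafc89, KE, module STP: the heart of part (A)
-/

set_option autoImplicit false

namespace Pool.Agent.Lib.MPbafc89.KE

open SimpleGraph
open Pool.Agent.Lib.MPbafc89.BQ (Jn Cn)

universe u v

namespace STPM

theorem one {V : Type u} {G : SimpleGraph V} {k m : ℕ} (hNo : NoE G k) {B : Fin m → Set V}
    (hKM : KM G B) {o : Fin m} {P : Set V} (hP : Cn G P)
    (hd : ∀ i, i ≠ o → Disjoint P (B i)) {I : Finset (Fin m)}
    (hI : ∀ i, i ∈ I ↔ i ≠ o ∧ Tch G P (B i)) {i0 : Fin m} (hi0 : i0 ≠ o)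
    (hn : ¬ Tch G P (B i0)) : I.card < k := by
  by_contra hcon
  push Not at hcon
  apply hn
  have hne : ∀ i ∈ I, i0 ≠ i := by
    rintro i hi rfl
    exact hn ((hI _).1 hi).2
  exact hNo.use I hcon B hP (hKM.cn i0) (hd i0 hi0) (fun i _ => hKM.cn i)
    (fun i _ j _ hij => hKM.dis i j hij) (fun i _ j _ hij => hKM.tch i j hij)
    (fun i hi => hd i ((hI i).1 hi).1) (fun i hi => hKM.dis i0 i (hne i hi))
    (fun i hi => ((hI i).1 hi).2) (fun i hi => hKM.tch i0 i (hne i hi))

theorem two {V : Type u} {G : SimpleGraph V} {k m : ℕ} (hNo : NoE G k) {B : Fin m → Set V}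
    (hKM : KM G B) {o : Fin m} {P P' : Set V} (hP : Cn G P) (hP' : Cn G P')
    (hPP : Disjoint P P') (ht : Tch G P P')
    (hd : ∀ i, i ≠ o → Disjoint P (B i)) (hd' : ∀ i, i ≠ o → Disjoint P' (B i))
    {J : Finset (Fin m)} (hJ : ∀ i, i ∈ J ↔ i ≠ o ∧ Tch G P' (B i)) {i i' : Fin m}
    (hio : i ≠ o) (hi' : i' ≠ o) (hne : i ≠ i') (h1 : Tch G P (B i))
    (h2 : ¬ Tch G P' (B i)) (h2' : ¬ Tch G P' (B i')) : J.card + 1 < k := by
  classical
  by_contra hcon
  push Not at hcon
  apply h2'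
  have hiJ : i ∉ J := fun h => h2 ((hJ i).1 h).2
  have hi'J : i' ∉ J := fun h => h2' ((hJ i').1 h).2
  have hneJ : ∀ j ∈ J, j ≠ i := fun j hj h => hiJ (h ▸ hj)
  have hneJ' : ∀ j ∈ J, i' ≠ j := fun j hj h => hi'J (h ▸ hj)
  let C : Fin m → Set V := fun j => if j = i then B i ∪ P else B j
  have hCi : C i = B i ∪ P := if_pos rfl
  have hCj : ∀ j ∈ J, C j = B j := fun j hj => if_neg (hneJ j hj)
  have hCc : Cn G (B i ∪ P) := by
    obtain ⟨x, hx, y, hy, hxy⟩ := h1
    exact (hKM.cn i).union_adj hP hy hx hxy.symm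
  have hdij : ∀ j ∈ J, Disjoint (C i) (C j) := by
    intro j hj
    rw [hCi, hCj j hj]
    exact Disjoint.union_left (hKM.dis i j (hneJ j hj).symm) (hd j ((hJ j).1 hj).1)
  have htij : ∀ j ∈ J, Tch G (C i) (C j) := by
    intro j hj
    rw [hCi, hCj j hj]
    exact (hKM.tch i j (hneJ j hj).symm).mono Set.subset_union_left subset_rfl
  refine hNo.use (insert i J) (by rw [Finset.card_insert_of_notMem hiJ]; exact hcon) C hP'
    (hKM.cn i') (hd' i' hi') ?_ ?_ ?_ ?_ ?_ ?_ ?_
  · intro j hj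
    rcases Finset.mem_insert.1 hj with rfl | hj
    · rw [hCi]; exact hCc
    · rw [hCj j hj]; exact hKM.cn j
  · intro j hj j' hj' hjj
    rcases Finset.mem_insert.1 hj with h | hj
    · rcases Finset.mem_insert.1 hj' with h' | hj'
      · exact absurd (h.trans h'.symm) hjj
      · rw [h]; exact hdij j' hj'
    · rcases Finset.mem_insert.1 hj' with h' | hj'
      · rw [h']; exact (hdij j hj).symm
      · rw [hCj j hj, hCj j' hj']; exact hKM.dis j j' hjj
  · intro j hj j' hj' hjj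
    rcases Finset.mem_insert.1 hj with h | hj
    · rcases Finset.mem_insert.1 hj' with h' | hj'
      · exact absurd (h.trans h'.symm) hjj
      · rw [h]; exact htij j' hj'
    · rcases Finset.mem_insert.1 hj' with h' | hj'
      · rw [h']; exact (htij j hj).symm
      · rw [hCj j hj, hCj j' hj']; exact hKM.tch j j' hjj
  · intro j hj
    rcases Finset.mem_insert.1 hj with h | hj
    · rw [h, hCi]
      exact Disjoint.union_right (hd' i hio) hPP.symm
    · rw [hCj j hj]; exact hd' j ((hJ j).1 hj).1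
  · intro j hj
    rcases Finset.mem_insert.1 hj with h | hj
    · rw [h, hCi]
      exact Disjoint.union_right (hKM.dis i' i hne.symm) (hd i' hi').symm
    · rw [hCj j hj]; exact hKM.dis i' j (hneJ' j hj)
  · intro j hj
    rcases Finset.mem_insert.1 hj with h | hj
    · rw [h, hCi]
      exact ht.symm.mono subset_rfl Set.subset_union_right
    · rw [hCj j hj]; exact ((hJ j).1 hj).2
  · intro j hj
    rcases Finset.mem_insert.1 hj with h | hj
    · rw [h, hCi]
      exact (hKM.tch i' i hne.symm).mono subset_rfl Set.subset_union_left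
    · rw [hCj j hj]; exact hKM.tch i' j (hneJ' j hj)

end STPM

theorem specSTP : SpecSTP.{u} := by
  classical
  intro V G k m hNo hk hkm h2k B hKM o v X hBo hvX hX hadj hv hXn
  have hdo : ∀ i, i ≠ o → Disjoint (insert v X) (B i) := by
    intro i hi
    rw [← hBo]
    exact hKM.dis o i hi.symm
  have hdv : ∀ i, i ≠ o → Disjoint ({v} : Set V) (B i) := fun i hi =>
    (hdo i hi).mono_left (by
      intro z hz
      rw [Set.mem_singleton_iff] at hz
      rw [hz]
      exact Set.mem_insert _ _)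
  have hdX : ∀ i, i ≠ o → Disjoint X (B i) := fun i hi =>
    (hdo i hi).mono_left (Set.subset_insert _ _)
  have hvX' : Disjoint ({v} : Set V) X := Set.disjoint_singleton_left.2 hvX
  have htv : Tch G ({v} : Set V) X := by
    obtain ⟨x, hx, h⟩ := hadj
    exact ⟨v, Set.mem_singleton v, x, hx, h⟩
  let I : Finset (Fin m) := Finset.univ.filter (fun i => i ≠ o ∧ Tch G ({v} : Set V) (B i))
  let J : Finset (Fin m) := Finset.univ.filter (fun i => i ≠ o ∧ Tch G X (B i))
  have hI : ∀ i, i ∈ I ↔ i ≠ o ∧ Tch G ({v} : Set V) (B i) := fun i => by simp [I]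
  have hJ : ∀ i, i ∈ J ↔ i ≠ o ∧ Tch G X (B i) := fun i => by simp [J]
  have hUn : (Finset.univ.erase o : Finset (Fin m)) ⊆ I ∪ J := by
    intro i hi
    have hio : i ≠ o := Finset.ne_of_mem_erase hi
    obtain ⟨x, hx, y, hy, hxy⟩ := hKM.tch o i hio.symm
    rw [hBo] at hx
    rw [Finset.mem_union]
    rcases hx with hx | hx
    · left
      exact (hI i).2 ⟨hio, x, hx, y, hy, hxy⟩
    · right
      exact (hJ i).2 ⟨hio, x, hx, y, hy, hxy⟩
  have hcU : m - 1 ≤ (I ∪ J).card := by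
    have h1 := Finset.card_le_card hUn
    rwa [Finset.card_erase_of_mem (Finset.mem_univ o), Finset.card_univ, Fintype.card_fin] at h1
  obtain ⟨i0, hi0, hn0⟩ := hv
  obtain ⟨j0, hj0, hm0⟩ := hXn
  have hIk : I.card < k := STPM.one hNo hKM (Cn.singleton v) hdv hI hi0 hn0
  have hJk : J.card < k := STPM.one hNo hKM hX hdX hJ hj0 hm0
  have hIJ : 1 < (I \ J).card := by
    have h1 : (I \ J).card + J.card = (I ∪ J).card := Finset.card_sdiff_add_card I J
    omega
  have hJI : 1 < (J \ I).card := by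
    have h1 : (J \ I).card + I.card = (J ∪ I).card := Finset.card_sdiff_add_card J I
    rw [Finset.union_comm] at h1
    omega
  obtain ⟨i, hi, i', hi', hne⟩ := Finset.one_lt_card.1 hIJ
  obtain ⟨j, hj, j', hj', hnj⟩ := Finset.one_lt_card.1 hJI
  rw [Finset.mem_sdiff, hI, hJ] at hi hi'
  rw [Finset.mem_sdiff, hI, hJ] at hj hj'
  have hJ2 : J.card + 1 < k := STPM.two hNo hKM (Cn.singleton v) hX hvX' htv hdv hdX hJ
    hi.1.1 hi'.1.1 hne hi.1.2 (fun h => hi.2 ⟨hi.1.1, h⟩) (fun h => hi'.2 ⟨hi'.1.1, h⟩)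
  have hI2 : I.card + 1 < k := STPM.two hNo hKM hX (Cn.singleton v) hvX'.symm htv.symm hdX hdv hI
    hj.1.1 hj'.1.1 hnj hj.1.2 (fun h => hj.2 ⟨hj.1.1, h⟩) (fun h => hj'.2 ⟨hj'.1.1, h⟩)
  have h3 := Finset.card_union_le I J
  omega

end Pool.Agent.Lib.MPbafc89.KE
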