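import Pool.Agent.Lib.MP_bafc89_co.BQ.Base

/-!
# MP_bafc89_co: the complete graph minus an edge.  Specification (captain: helper73)

THEOREM (hand-in `CompleteMinusEdge`).  Let `n ≥ 3`, `K_n^-` the complete graph on `n` vertices
minus one edge and `m = max(n, 2n-6)`.  Every graph `G` (finite or infinite) without an induced
minor `K_n^-` has a quotient `G'` by pairwise disjoint cliques (so `d_G ≤ 2 d_G' + 1` and
`d_G' ≤ d_G`) which has no `K_m` minor.  For `n ≤ 6` it follows that `G'` has no `K_n^-` minor: the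
statement of Q1 holds for `K_5^-` and `K_6^-` (known: `K_3^-`, `K_4^-`).

In the Lean files `n = k + 2`, so `k ≥ 1`, `k + 2 ≤ m` and `2 k ≤ m + 2`.

IDEA.  (A) `SpecTRV`: for every family of `m` pairwise disjoint, pairwise touching connected sets
there is a clique with one vertex in each of them.  (B) `SpecLMB`: a connected set disjoint from a
maximal clique `K` of size `≥ m` (`Big`) has less than `k` neighbours in `K`.  (C) every `Big` `K`
has a subset `T(K)` (`top`), `|T(K)| < k`, such that the sets `K \ T(K)` are pairwise disjoint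
(`SpecUNI`).  (D) Contract every `K \ T(K)` to one point.  A `K_m` minor of the quotient gives by (A)
(in the quotient and then in `G`) a clique of `G` of size `m` in `m` different classes; it is
contained in a `Big` `K`, but `K` meets at most `1 + (k - 1) < m` classes.

All modules are independent: file `KE/XXX.lean`, `import Pool.Agent.Lib.MP_bafc89_co.KE.Spec`,
namespace `Pool.Agent.Lib.MPbafc89.KE`, `theorem specXXX (hYYY : SpecYYY) ... : SpecXXX` (deps in the
order of USES), own lemmas in a namespace `XXXM`.  The toolkit `BQ/Base.lean` (`Jn G S x y`: a walk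
from `x` to `y` inside `S`; `Cn G S`: `S` nonempty and connected; `Jn.refl`, `Jn.symm`, `Jn.trans`,
`Jn.mono`, `Jn.adj`, `Jn.left`, `Jn.right`, `Jn.induct`, `Cn.of_center`, `Cn.singleton`, `cn_iff`,
`Cn.union`, `Cn.union_adj`, `Cn.union_iUnion`, `Cn.map`) is proved.
-/

set_option autoImplicit false

namespace Pool.Agent.Lib.MPbafc89.KE

open SimpleGraph
open Pool.Agent.Lib.MPbafc89.BQ (Jn Cn)

universe u v

/-! ### Touching sets, clique minor systems, the excluded induced minor -/

/-- there is an edge between `A` and `B` -/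
def Tch {V : Type u} (G : SimpleGraph V) (A B : Set V) : Prop := ∃ x ∈ A, ∃ y ∈ B, G.Adj x y

/-- pairwise disjoint, pairwise touching connected sets (a model of a complete graph minor) -/
structure KM {V : Type u} (G : SimpleGraph V) {ι : Type v} (B : ι → Set V) : Prop where
  cn : ∀ i, Cn G (B i)
  dis : ∀ i j, i ≠ j → Disjoint (B i) (B j)
  tch : ∀ i j, i ≠ j → Tch G (B i) (B j)

/-- no induced minor `K_(k+2)` minus an edge: if two disjoint connected sets `P`, `Q` are
disjoint from and touch all members of a family of `k` pairwise disjoint, pairwise touching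
connected sets then `P` and `Q` touch -/
def NoE {V : Type u} (G : SimpleGraph V) (k : ℕ) : Prop :=
  ∀ (P Q : Set V) (B : Fin k → Set V), Cn G P → Cn G Q → Disjoint P Q → KM G B →
    (∀ i, Disjoint P (B i)) → (∀ i, Disjoint Q (B i)) →
    (∀ i, Tch G P (B i)) → (∀ i, Tch G Q (B i)) → Tch G P Q

theorem Tch.symm {V : Type u} {G : SimpleGraph V} {A B : Set V} (h : Tch G A B) : Tch G B A := by
  obtain ⟨x, hx, y, hy, hxy⟩ := h
  exact ⟨y, hy, x, hx, hxy.symm⟩

theorem Tch.mono {V : Type u} {G : SimpleGraph V} {A B A' B' : Set V} (h : Tch G A B)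
    (hA : A ⊆ A') (hB : B ⊆ B') : Tch G A' B' := by
  obtain ⟨x, hx, y, hy, hxy⟩ := h
  exact ⟨x, hA hx, y, hB hy, hxy⟩

/-- a nonempty clique is connected -/
theorem cn_of_clique {V : Type u} {G : SimpleGraph V} {S : Set V} (h0 : S.Nonempty)
    (h : ∀ x ∈ S, ∀ y ∈ S, x ≠ y → G.Adj x y) : Cn G S := by
  refine ⟨h0, fun x hx y hy => ?_⟩
  by_cases hxy : x = y
  · subst hxy; exact Jn.refl hx
  · exact Jn.adj hx hy (h x hx y hy hxy)

/-- `NoE` for a family indexed by the elements of a finset with at least `k` elements -/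
theorem NoE.use {V : Type u} {G : SimpleGraph V} {k : ℕ} (h : NoE G k) {ι : Type v}
    (S : Finset ι) (hS : k ≤ S.card) (C : ι → Set V) {P Q : Set V} (hP : Cn G P) (hQ : Cn G Q)
    (hPQ : Disjoint P Q) (hcn : ∀ i ∈ S, Cn G (C i))
    (hdis : ∀ i ∈ S, ∀ j ∈ S, i ≠ j → Disjoint (C i) (C j))
    (htch : ∀ i ∈ S, ∀ j ∈ S, i ≠ j → Tch G (C i) (C j))
    (hPC : ∀ i ∈ S, Disjoint P (C i)) (hQC : ∀ i ∈ S, Disjoint Q (C i))
    (hPt : ∀ i ∈ S, Tch G P (C i)) (hQt : ∀ i ∈ S, Tch G Q (C i)) : Tch G P Q := by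
  obtain ⟨S', hS', hcard⟩ := Finset.exists_subset_card_eq hS
  have e : Fin k ≃ S' := (Fintype.equivFinOfCardEq (by simpa using hcard)).symm
  have hm : ∀ i : Fin k, ((e i : S') : ι) ∈ S := fun i => hS' (e i).2
  have hne : ∀ i j : Fin k, i ≠ j → ((e i : S') : ι) ≠ (e j : S') := fun i j hij he =>
    hij (e.injective (Subtype.ext he))
  exact h P Q (fun i => C (e i)) hP hQ hPQ
    ⟨fun i => hcn _ (hm i), fun i j hij => hdis _ (hm i) _ (hm j) (hne i j hij),
      fun i j hij => htch _ (hm i) _ (hm j) (hne i j hij)⟩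
    (fun i => hPC _ (hm i)) (fun i => hQC _ (hm i)) (fun i => hPt _ (hm i)) (fun i => hQt _ (hm i))

/-! ### Big cliques and their tops -/

/-- a maximal clique with at least `m` elements -/
structure Big {V : Type u} (G : SimpleGraph V) (m : ℕ) (K : Set V) : Prop where
  clq : ∀ x ∈ K, ∀ y ∈ K, x ≠ y → G.Adj x y
  max : ∀ x, x ∉ K → ∃ y ∈ K, ¬ G.Adj x y
  big : (m : ℕ∞) ≤ K.encard

/-- the neighbours in `K` of the component of `G - K` containing `r` (`r ∉ K`) -/
def Sha {V : Type u} (G : SimpleGraph V) (K : Set V) (r : V) : Set V :=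
  {z | z ∈ K ∧ ∃ y, Jn G Kᶜ r y ∧ G.Adj y z}

/-- the component of `G - X` containing `K \ X` (`K` a clique) -/
def Dom {V : Type u} (G : SimpleGraph V) (X K : Set V) : Set V :=
  {y | ∃ x ∈ K \ X, Jn G Xᶜ x y}

/-- `ρ X D` is an element of `D` adjacent to all elements of `X`, if there is one -/
def Rooting {V : Type u} (G : SimpleGraph V) (ρ : Set V → Set V → V) : Prop :=
  ∀ X D : Set V, (∃ r ∈ D, ∀ x ∈ X, G.Adj r x) → ρ X D ∈ D ∧ ∀ x ∈ X, G.Adj (ρ X D) x

open Classical in
/-- one step of the construction of the top -/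
noncomputable def nxt {V : Type u} (G : SimpleGraph V) (ρ : Set V → Set V → V) (K X : Set V) :
    Set V :=
  if ρ X (Dom G X K) ∈ K then insert (ρ X (Dom G X K)) X else Sha G K (ρ X (Dom G X K))

open Classical in
/-- the increasing sequence of sets whose `k`-th member is the top of `K` -/
noncomputable def top {V : Type u} (G : SimpleGraph V) (ρ : Set V → Set V → V) (k : ℕ)
    (K : Set V) : ℕ → Set V
  | 0 => ∅
  | j + 1 => if (top G ρ k K j).encard + 1 < (k : ℕ∞) then nxt G ρ K (top G ρ k K j)
      else top G ρ k K j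

/-! ### The quotient -/

/-- the quotient graph of an equivalence relation -/
def qg {V : Type u} (G : SimpleGraph V) (s : Setoid V) : SimpleGraph (Quotient s) where
  Adj a b := a ≠ b ∧ ∃ x y, Quotient.mk s x = a ∧ Quotient.mk s y = b ∧ G.Adj x y
  symm := ⟨fun a b h => by
    obtain ⟨h0, x, y, hx, hy, hxy⟩ := h
    exact ⟨h0.symm, y, x, hy, hx, hxy.symm⟩⟩
  loopless := ⟨fun a h => h.1 rfl⟩

/-- the classes are cliques -/
def Ccl {V : Type u} (G : SimpleGraph V) (s : Setoid V) : Prop :=
  ∀ x y, s x y → x ≠ y → G.Adj x y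

/-! ### The modules -/

/-- MODULE SHR (90 lines).  Branch sets can be made finite.
PROOF.  For `i ≠ j` choose `x i j ∈ B i`, `y i j ∈ B j` adjacent (from `tch i j`), and a point
`c i ∈ B i` (`(cn i).1`).  As `B i` is connected there are walks inside `B i` from `c i` to `x i j`
and to `y j i` for all `j ≠ i`; let `B' i` be the set of all vertices of these finitely many walks
together with `c i`.  It is finite, contained in `B i`, and connected: every one of its vertices `z`
is on a walk `w` starting in `c i` with support in `B' i`, and `Jn G (B' i) (c i) z` by the initial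
part `w.takeUntil z` (`Cn.of_center`).  `B' i` and `B' j` are disjoint as subsets of `B i`, `B j`,
and touch by `x i j`, `y i j`. -/
def SpecSHR : Prop :=
  ∀ (V : Type u) (G : SimpleGraph V) (m : ℕ) (B : Fin m → Set V), KM G B →
    ∃ B' : Fin m → Set V, KM G B' ∧ (∀ i, B' i ⊆ B i) ∧ ∀ i, (B' i).Finite

/-- MODULE NCV (70 lines).  A finite connected set `S` with two elements has an element `v` such
that `S \ {v}` is connected; then `v` is adjacent to an element of `S \ {v}`.
PROOF.  The first statement is in Mathlib for the connected graph `G.induce S`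
(`SimpleGraph.Connected.exists_connected_induce_compl_singleton_of_finite_nontrivial` or a similar
name: search for `exists_preconnected_induce_compl_singleton`), to be translated with `cn_iff`; or
directly: fix `c ∈ S` and let `v ∈ S` be at the largest distance from `c` in `G.induce S`; shortest
walks from `c` to the other elements do not use `v`, and `v ≠ c`.  For the second: there is
`x ∈ S`, `x ≠ v`, and `Jn G S v x`; by `Jn.induct` with the property `z = v ∨ (the conclusion)` there
is a neighbour of `v` in `S \ {v}`. -/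
def SpecNCV : Prop :=
  ∀ (V : Type u) (G : SimpleGraph V) (S : Set V), Cn G S → S.Finite → S.Nontrivial →
    ∃ v ∈ S, Cn G (S \ {v}) ∧ ∃ x ∈ S \ {v}, G.Adj v x

/-- MODULE STP (170 lines).  The heart of part (A).
`B i` (`i : Fin m`) is a clique minor system, `B o = {v} ∪ X`, `v ∉ X`, `X` connected, `v` has a
neighbour in `X`, some `B i` (`i ≠ o`) does not touch `{v}` and some `B j` (`j ≠ o`) does not
touch `X`.  Contradiction.
PROOF.  All indices below are `≠ o`.  Let `I` be the finset of the `i` with `Tch G {v} (B i)` and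
`J` the finset of the `i` with `Tch G X (B i)`.  As `B i` touches `B o = {v} ∪ X`, `I ∪ J` consists
of all `m - 1` indices.  `X`, `{v}` and the `B i` (`i ≠ o`) are pairwise disjoint.
(2) `|I| < k`: let `i0 ∉ I`.  The connected sets `P = {v}` and `Q = B i0` do not touch and both
touch all `B i`, `i ∈ I`.  If `|I| ≥ k` then `NoE.use` gives a contradiction.
(3) `|J| < k`: the same with `P = X` and `Q = B j0`, `j0 ∉ J`.
Hence `|I \ J| ≥ |I ∪ J| - |J| ≥ (m - 1) - (k - 1) ≥ 2` and in the same way `|J \ I| ≥ 2`.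
(4) `|J| + 2 ≤ k`: take `i ≠ i'` in `I \ J` and `C := B i ∪ {v}`, a connected set.  Then `P = X` and
`Q = B i'` do not touch (`i' ∉ J`), both touch `C` (`v` has a neighbour in `X`; `B i` touches
`B i'`), and both touch `B j` for `j ∈ J`; `C` and the `B j`, `j ∈ J`, are pairwise disjoint (`i ∉ J`)
and pairwise touching.  So `NoE.use` with the finset `insert i J` and the family
`fun j => if j = i then C else B j` gives a contradiction if `|J| + 1 ≥ k`.
(5) `|I| + 2 ≤ k`: take `j ≠ j'` in `J \ I` and `C := B j ∪ X` (connected by an edge between `X` and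
`B j`); `P = {v}` and `Q = B j'` do not touch (`j' ∉ I`), both touch `C` and all `B i`, `i ∈ I`.
So `m - 1 = |I ∪ J| ≤ |I| + |J| ≤ 2 k - 4`, against `2 k ≤ m + 2`.
(If `k = 1`, (4) is already a contradiction.) -/
def SpecSTP : Prop :=
  ∀ (V : Type u) (G : SimpleGraph V) (k m : ℕ), NoE G k → 1 ≤ k → k + 2 ≤ m → 2 * k ≤ m + 2 →
    ∀ (B : Fin m → Set V), KM G B → ∀ (o : Fin m) (v : V) (X : Set V), B o = insert v X → v ∉ X →
      Cn G X → (∃ x ∈ X, G.Adj v x) →
      (∃ i, i ≠ o ∧ ¬ Tch G {v} (B i)) → (∃ j, j ≠ o ∧ ¬ Tch G X (B j)) → False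

/-- MODULE LMA (100 lines).  USES `SpecNCV`, `SpecSTP`.  Part (A) for finite branch sets.
PROOF.  Induction on `N = ∑ i, (B i).ncard` (strong induction, all `B` at once).  If every `B i` has
only one element the elements `b i` are pairwise adjacent.  Otherwise let `B o` have two elements,
`v` from `SpecNCV` and `X = B o \ {v}`, so `B o = insert v X`.  If all `B i`, `i ≠ o`, touch `{v}`
then `Function.update B o {v}` is again a clique minor system of finite sets with a smaller sum of
cardinalities, contained in `B`, and its transversal clique is one for `B`.  If all `B i`, `i ≠ o`,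
touch `X` then the same holds for `Function.update B o X`.  Otherwise `SpecSTP` gives a
contradiction. -/
def SpecLMA : Prop :=
  ∀ (V : Type u) (G : SimpleGraph V) (k m : ℕ), NoE G k → 1 ≤ k → k + 2 ≤ m → 2 * k ≤ m + 2 →
    ∀ (B : Fin m → Set V), KM G B → (∀ i, (B i).Finite) →
      ∃ b : Fin m → V, (∀ i, b i ∈ B i) ∧ ∀ i j, i ≠ j → G.Adj (b i) (b j)

/-- MODULE TRV (20 lines).  USES `SpecSHR`, `SpecLMA`.  Part (A). -/
def SpecTRV : Prop :=
  ∀ (V : Type u) (G : SimpleGraph V) (k m : ℕ), NoE G k → 1 ≤ k → k + 2 ≤ m → 2 * k ≤ m + 2 →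
    ∀ (B : Fin m → Set V), KM G B →
      ∃ b : Fin m → V, (∀ i, b i ∈ B i) ∧ ∀ i j, i ≠ j → G.Adj (b i) (b j)

/-- MODULE LMB (130 lines).  USES `SpecTRV`.  Part (B): a connected set disjoint from a big clique
`K` has less than `k` neighbours in `K`.
PROOF.  Let `N` be the set of neighbours of `C` in `K` and suppose `|N| ≥ k`.
(a) `N = K`: let `S ⊆ N` be a finset with `k` elements and suppose `x ∈ K \ N`.  Then `P = C` and
`Q = {x}` do not touch but both touch the sets `{s}`, `s ∈ S` (`x ∉ S`), which are pairwise disjoint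
and pairwise touching: contradiction to `NoE.use` (`ι = V`, family `fun s => {s}`).
(b) Let `S' ⊆ K = N` be a finset with `m - 1` elements (`m - 1 ≤ m ≤ |K|`).  `C` and the sets `{s}`,
`s ∈ S'`, form a clique minor system with `m` members; `SpecTRV` gives `c ∈ C` adjacent to all
elements of `S'`.  As `c ∉ K` there is `x ∈ K` not adjacent to `c` (`Big.max`), `x ∉ S'`, and
`|S'| ≥ k + 1 ≥ k`: `NoE.use` with `P = {c}`, `Q = {x}` and the singletons of `S'` gives that `c` and
`x` are adjacent, a contradiction.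
(Index the system in (b) by `Fin m` through an injection `g : Fin (m - 1) → V` with image in `K` and
`Fin.cons`, or for `m = m' + 1` by `Fin.cons C (fun i => {g i})`.) -/
def SpecLMB : Prop :=
  ∀ (V : Type u) (G : SimpleGraph V) (k m : ℕ), NoE G k → 1 ≤ k → k + 2 ≤ m → 2 * k ≤ m + 2 →
    ∀ (K C : Set V), Big G m K → Cn G C → Disjoint C K →
      {z | z ∈ K ∧ ∃ c ∈ C, G.Adj c z}.encard < (k : ℕ∞)

/-- MODULE INT (40 lines).  USES `SpecLMB`.  Two different big cliques have less than `k` common
elements.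
PROOF.  `C = K' \ K` is not empty: otherwise `K' ⊆ K`, and `K ⊆ K'` by maximality of `K'` (an
`x ∈ K \ K'` would be adjacent to all elements of `K'`, by `clq` of `K`), so `K = K'`.  `C` is a
nonempty clique, hence connected (`cn_of_clique`), disjoint from `K`, and every element of `K ∩ K'`
is adjacent to the elements of `C`.  So `K ∩ K'` is contained in the set of `SpecLMB`
(`Set.encard_le_encard`). -/
def SpecINT : Prop :=
  ∀ (V : Type u) (G : SimpleGraph V) (k m : ℕ), NoE G k → 1 ≤ k → k + 2 ≤ m → 2 * k ≤ m + 2 →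
    ∀ (K K' : Set V), Big G m K → Big G m K' → K ≠ K' → (K ∩ K').encard < (k : ℕ∞)

/-- MODULE INV (110 lines).  USES `SpecLMB`.  The sets `top G ρ k K j` are subsets of `K` with less
than `k` elements and increase with `j`.
PROOF.  Induction on `j` for the first two statements (`|∅| = 0 < k`).  Let `X = top .. j ⊆ K`,
`|X| < k`.  If not `|X| + 1 < k` then `top .. (j + 1) = X`.  Let `|X| + 1 < k`.  As `|X| < k ≤ m ≤ |K|`
there is `z ∈ K \ X`; `z ∈ Dom G X K` (`Jn.refl`) and `z` is adjacent to all elements of `X ⊆ K`, so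
`r = ρ X (Dom G X K)` is adjacent to all elements of `X` (`Rooting`).  If `r ∈ K` then `nxt = insert r X`
is a subset of `K` with at most `|X| + 1 < k` elements and contains `X`.  If `r ∉ K` then
`nxt = Sha G K r`, a subset of `K`; `C = {y | Jn G Kᶜ r y}` is connected (`Cn.of_center`: a joining
walk from `r` to `y` inside `Kᶜ` has all its vertices in `C`; use `Jn.induct` with the property
`Jn G C r y`) and disjoint from `K` (`Jn.right`), so `|Sha G K r| < k` by `SpecLMB`; and
`X ⊆ Sha G K r` as `r` is adjacent to the elements of `X` (`y = r`, `Jn.refl`). -/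
def SpecINV : Prop :=
  ∀ (V : Type u) (G : SimpleGraph V) (k m : ℕ), NoE G k → 1 ≤ k → k + 2 ≤ m → 2 * k ≤ m + 2 →
    ∀ (ρ : Set V → Set V → V), Rooting G ρ → ∀ (K : Set V), Big G m K → ∀ j : ℕ,
      top G ρ k K j ⊆ K ∧ (top G ρ k K j).encard < (k : ℕ∞) ∧
        top G ρ k K j ⊆ top G ρ k K (j + 1)

/-- MODULE STE (150 lines).  One step of the comparison of the tops of two cliques `K`, `K'` with a
common element `v`.
PROOF.  First `Dom G X K = Dom G X K'`, both are `{y | Jn G Xᶜ v y}`: for `x ∈ K \ X` there is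
`Jn G Xᶜ x v` (`x = v` or `x`, `v` adjacent elements of `K`).  So the root `r` is the same for `K` and
`K'`.  `v` is an element of this set adjacent to all elements of `X ⊆ K`, so `r` is
adjacent to all elements of `X`, `Jn G Xᶜ v r`, in particular `r ∉ X`.
(1) `r ∈ K` and `r ∈ K'`: `nxt` is `insert r X` for both, contained in `K ∩ K'`, and contains
`r ∉ X`.
(2) `r ∈ K`, `r ∉ K'`: `r ≠ v`, so `r` and `v` are adjacent (`K` a clique) and
`v ∈ Sha G K' r = nxt G ρ K' X` (`y = r`), a contradiction.  In the same way `r ∉ K`, `r ∈ K'` is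
impossible.
(3) `r ∉ K`, `r ∉ K'`.  Claim: `Sha G K r ⊆ K' ∩ Sha G K' r`.  Let `z ∈ Sha G K r`: `z ∈ K`,
`Jn G Kᶜ r y`, `y` adjacent to `z`.  By `Jn.induct` all `b` with `Jn G Kᶜ r b` reached along the walk
satisfy `Jn G (Kᶜ ∩ K'ᶜ) r b`: if `a`, `b` are adjacent, `Jn G (Kᶜ ∩ K'ᶜ) r a`, `b ∉ K` and `b ∈ K'`,
then `b ≠ v`, so `b` is adjacent to `v` (`K'` a clique) and `Jn G Kᶜ r b`, so
`v ∈ Sha G K r = nxt G ρ K X`, a contradiction.  So `Jn G (Kᶜ ∩ K'ᶜ) r y`.  If `z ∉ K'` then `z ≠ v`,
`z` is adjacent to `v` (`K` a clique), `Jn G K'ᶜ r z`, so `v ∈ Sha G K' r = nxt G ρ K' X`, a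
contradiction.  So `z ∈ K'` and `z ∈ Sha G K' r`.  By symmetry `Sha G K r = Sha G K' r ⊆ K ∩ K'`.
Strict growth: `X ⊆ Sha G K r` as `r` is adjacent to the elements of `X ⊆ K`.  There is an element of
`Sha G K r` outside `X`: by `Jn.induct` along `Jn G Xᶜ r v` with the property
`Jn G Kᶜ r b ∨ ∃ z ∈ Sha G K r, z ∉ X` (if `Jn G Kᶜ r a`, `a`, `b` adjacent, `b ∉ X` then either
`b ∉ K` and `Jn G Kᶜ r b`, or `b ∈ K` and `b ∈ Sha G K r`, `b ∉ X`); for `b = v ∈ K` the first
alternative is impossible (`Jn.right`). -/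
def SpecSTE : Prop :=
  ∀ (V : Type u) (G : SimpleGraph V) (ρ : Set V → Set V → V), Rooting G ρ →
    ∀ (K K' X : Set V) (v : V), (∀ x ∈ K, ∀ y ∈ K, x ≠ y → G.Adj x y) →
      (∀ x ∈ K', ∀ y ∈ K', x ≠ y → G.Adj x y) → v ∈ K → v ∈ K' → X ⊆ K → X ⊆ K' → v ∉ X →
      v ∉ nxt G ρ K X → v ∉ nxt G ρ K' X →
      nxt G ρ K X = nxt G ρ K' X ∧ nxt G ρ K X ⊆ K' ∧ X ⊂ nxt G ρ K X

/-- MODULE UNI (100 lines).  USES `SpecINT`, `SpecINV`, `SpecSTE`.  Part (C).
PROOF.  Suppose `v ∈ K ∩ K'`, `v ∉ top G ρ k K k`, `v ∉ top G ρ k K' k`.  Write `X_j`, `X'_j` for the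
two sequences; by `SpecINV` (monotone, `monotone_nat_of_le_succ`) `v ∉ X_j` and `v ∉ X'_j` for all
`j ≤ k`.  By induction on `j ≤ k`: `X_j = X'_j`, `X_j ⊆ K ∩ K'` and `j ≤ |X_j|`.  Step `j < k`: as
`v ∈ (K ∩ K') \ X_j`, `|X_j| + 1 = |insert v X_j| ≤ |K ∩ K'| < k` (`SpecINT`), so
`X_(j+1) = nxt G ρ K X_j`, `X'_(j+1) = nxt G ρ K' X_j`, and `SpecSTE` applies; the growth is strict and
`X_(j+1)` is finite (`|X_(j+1)| < k`), so `|X_(j+1)| ≥ j + 1` (`Set.Finite.encard_lt_encard`).  For
`j = k` this contradicts `|X_k| < k`. -/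
def SpecUNI : Prop :=
  ∀ (V : Type u) (G : SimpleGraph V) (k m : ℕ), NoE G k → 1 ≤ k → k + 2 ≤ m → 2 * k ≤ m + 2 →
    ∀ (ρ : Set V → Set V → V), Rooting G ρ → ∀ (K K' : Set V), Big G m K → Big G m K' → K ≠ K' →
      ∀ v, v ∈ K → v ∈ K' → v ∈ top G ρ k K k ∨ v ∈ top G ρ k K' k

/-- MODULE QIL (100 lines).  Distances in the quotient by an equivalence relation whose classes are
cliques.
PROOF.  Second inequality: if `G.edist x y` is finite there is a walk of this length
(`SimpleGraph.exists_walk_of_edist_ne_top` or a similar name); every walk of `G` of length `l` from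
`x` to `y` gives a walk of length `≤ l` between the classes (induction on the walk: adjacent vertices
are in the same class or in adjacent classes).
First inequality: by induction on a walk of length `l` of the quotient from `a` to `b`, for all
`x ∈ a`, `y ∈ b`: `G.edist x y ≤ 2 l + 1`.  `l = 0`: `x = y` or `x`, `y` are adjacent (`Ccl`).  Step:
`a` adjacent to `c`, there are `x' ∈ a`, `c' ∈ c` adjacent, so `G.edist x y ≤ G.edist x x' + 1 +
G.edist c' y ≤ 1 + 1 + (2 l + 1)` (`SimpleGraph.edist_triangle`).  (`Lib/MP_bafc89_co/Quot.lean` has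
similar lemmas.) -/
def SpecQIL : Prop :=
  ∀ (V : Type u) (G : SimpleGraph V) (s : Setoid V), Ccl G s → ∀ x y : V,
    G.edist x y ≤ 2 * (qg G s).edist (Quotient.mk s x) (Quotient.mk s y) + 1 ∧
    (qg G s).edist (Quotient.mk s x) (Quotient.mk s y) ≤ G.edist x y

/-- MODULE LFT (90 lines).  Clique minor systems of the quotient lift to `G`.
PROOF.  `D' = Quotient.mk s ⁻¹' D`.  Connected: `Cn.map` with `Φ a` = the class of `a` (a nonempty
clique, `cn_of_clique`; adjacent classes contain adjacent elements), or directly by `Jn.induct`.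
Disjoint: clear.  Touching: adjacent classes contain adjacent elements.  Last statement: if `x ∈ P'`
and `y ∈ Q'` are adjacent in `G` then their classes are different (`P`, `Q` disjoint), so they are
adjacent in `qg G s`. -/
def SpecLFT : Prop :=
  ∀ (V : Type u) (G : SimpleGraph V) (s : Setoid V), Ccl G s →
    (∀ D : Set (Quotient s), Cn (qg G s) D → Cn G (Quotient.mk s ⁻¹' D)) ∧
    (∀ P Q : Set (Quotient s), Tch (qg G s) P Q →
      Tch G (Quotient.mk s ⁻¹' P) (Quotient.mk s ⁻¹' Q)) ∧
    (∀ P Q : Set (Quotient s), Disjoint P Q →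
      Tch G (Quotient.mk s ⁻¹' P) (Quotient.mk s ⁻¹' Q) → Tch (qg G s) P Q)

/-- MODULE QNO (40 lines).  USES `SpecLFT`.  The quotient has no induced minor `K_(k+2)` minus an
edge either.
PROOF.  Apply `NoE G k` to the preimages of `P`, `Q` and the `B i`. -/
def SpecQNO : Prop :=
  ∀ (V : Type u) (G : SimpleGraph V) (k : ℕ) (s : Setoid V), Ccl G s → NoE G k → NoE (qg G s) k

/-- MODULE ZRN (60 lines).  Every clique with `m` elements is contained in a big clique.
PROOF.  Zorn (`zorn_subset_nonempty`, or `zorn_subset` for the set of cliques containing the range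
of `b`): the union of a chain of cliques is a clique.  A maximal clique `K` satisfies `Big.max`: if
`x ∉ K` were adjacent to all elements of `K`, `insert x K` would be a larger clique.  `Big.big`: `b` is
injective, so `m ≤ |range b| ≤ |K|`. -/
def SpecZRN : Prop :=
  ∀ (V : Type u) (G : SimpleGraph V) (m : ℕ) (b : Fin m → V),
    (∀ i j, i ≠ j → G.Adj (b i) (b j)) → ∃ K : Set V, Big G m K ∧ ∀ i, b i ∈ K

/-- MODULE NMI (70 lines).  USES `SpecTRV`, `SpecLFT`, `SpecQNO`, `SpecZRN`.  Part (D).
PROOF.  Let `B` be a clique minor system with `m` members in `qg G s`.  By `SpecQNO` and `SpecTRV`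
for `qg G s` there are pairwise adjacent classes `q i ∈ B i`, `i : Fin m`.  The preimages of the
`{q i}` are a clique minor system of `G` (`SpecLFT`; `{q i}` is connected by `Cn.singleton`), so by
`SpecTRV` for `G` there are pairwise adjacent `b i` with class `q i`; they are contained in a big
clique `K` (`SpecZRN`) and have pairwise different classes, against the hypothesis. -/
def SpecNMI : Prop :=
  ∀ (V : Type u) (G : SimpleGraph V) (k m : ℕ), NoE G k → 1 ≤ k → k + 2 ≤ m → 2 * k ≤ m + 2 →
    ∀ s : Setoid V, Ccl G s →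
      (∀ (K : Set V) (b : Fin m → V), Big G m K → (∀ i, b i ∈ K) →
        ∃ i j, i ≠ j ∧ s (b i) (b j)) →
      ∀ B : Fin m → Set (Quotient s), ¬ KM (qg G s) B

/-- MODULE SET (90 lines).  The equivalence relation.  `T` is an abstract top function.
PROOF.  `s x y` if `x = y` or there is a big `K` with `x`, `y` in `K \ T K`.  Transitive: if
`x, y ∈ K \ T K` and `y, z ∈ K' \ T K'` then `K = K'` by the hypothesis.  `Ccl`: `K` is a clique.  Last
statement: let `b : Fin m → V` have values in the big clique `K`.  If `b` is not injective take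
`i ≠ j` with `b i = b j`.  Otherwise at most `k - 1` of the `b i` are in `T K` and `m ≥ k + 2`, so there
are two indices `i ≠ j` with `b i`, `b j` in `K \ T K`. -/
def SpecSET : Prop :=
  ∀ (V : Type u) (G : SimpleGraph V) (k m : ℕ), k + 2 ≤ m → ∀ T : Set V → Set V,
    (∀ K, Big G m K → (T K).encard < (k : ℕ∞)) →
    (∀ K K' v, Big G m K → Big G m K' → K ≠ K' → v ∈ K → v ∈ K' → v ∈ T K ∨ v ∈ T K') →
    ∃ s : Setoid V, Ccl G s ∧ ∀ (K : Set V) (b : Fin m → V), Big G m K → (∀ i, b i ∈ K) →
      ∃ i j, i ≠ j ∧ s (b i) (b j)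

/-- `G'` is the quotient of `G` by an equivalence relation all of whose classes are cliques: the map
`f` onto `G'` -/
structure CliqueQuotient {V : Type u} {W : Type v} (G : SimpleGraph V) (G' : SimpleGraph W)
    (f : V → W) : Prop where
  surj : Function.Surjective f
  fib : ∀ x y, f x = f y → x ≠ y → G.Adj x y
  adj : ∀ a b : W, G'.Adj a b ↔ a ≠ b ∧ ∃ x y, f x = a ∧ f y = b ∧ G.Adj x y

/-- MODULE MAI (80 lines).  USES `SpecINV`, `SpecUNI`, `SpecSET`, `SpecNMI`, `SpecQNO`, `SpecQIL`.  The
main theorem in the language of this file.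
PROOF.  If `V` is empty take `G' = G`, `f = id` (there are no connected sets; `m ≥ 1`).  Otherwise a
rooting `ρ` exists by choice (`Classical.epsilon` or `if h : _ then h.choose else default`);
`T K = top G ρ k K k`; `SpecINV`, `SpecUNI` are the hypotheses of `SpecSET`; `G' = qg G s`. -/
def SpecMAI : Prop :=
  ∀ (V : Type u) (G : SimpleGraph V) (k m : ℕ), NoE G k → 1 ≤ k → k + 2 ≤ m → 2 * k ≤ m + 2 →
    ∃ (W : Type u) (G' : SimpleGraph W) (f : V → W), CliqueQuotient G G' f ∧
      (∀ x y : V, G.edist x y ≤ 2 * G'.edist (f x) (f y) + 1) ∧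
      (∀ x y : V, G'.edist (f x) (f y) ≤ G.edist x y) ∧
      NoE G' k ∧ ∀ B : Fin m → Set W, ¬ KM G' B

/-! ### The minors of the final statement -/

/-- `H` is a minor of `G`: disjoint connected branch sets, with an edge of `G` between the branch
sets of adjacent vertices. -/
def IsMinor {α : Type u} {V : Type v} (H : SimpleGraph α) (G : SimpleGraph V) : Prop :=
  ∃ B : α → Set V, (∀ i, (G.induce (B i)).Connected) ∧
    (∀ i j, i ≠ j → Disjoint (B i) (B j)) ∧
    (∀ i j, H.Adj i j → ∃ x ∈ B i, ∃ y ∈ B j, G.Adj x y)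

/-- `H` is an induced minor of `G`: disjoint connected branch sets, with an edge of `G` between two
branch sets if and only if the two vertices of `H` are adjacent. -/
def IsInducedMinor {α : Type u} {V : Type v} (H : SimpleGraph α) (G : SimpleGraph V) : Prop :=
  ∃ B : α → Set V, (∀ i, (G.induce (B i)).Connected) ∧
    (∀ i j, i ≠ j → Disjoint (B i) (B j)) ∧
    (∀ i j, i ≠ j → (H.Adj i j ↔ ∃ x ∈ B i, ∃ y ∈ B j, G.Adj x y))

/-- `H` is the complete graph on `n` vertices minus one edge -/
def IsCompleteMinusEdge {α : Type u} (n : ℕ) (H : SimpleGraph α) : Prop :=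
  Finite α ∧ Nat.card α = n ∧ ∃ a b : α, a ≠ b ∧
    ∀ x y, H.Adj x y ↔ x ≠ y ∧ ¬ (x = a ∧ y = b) ∧ ¬ (x = b ∧ y = a)

/-- MODULE MNI (100 lines).  `NoE G k` is the exclusion of the induced minor `K_(k+2)` minus an
edge, in both directions.
PROOF.  Let `a`, `b` be the two non-adjacent vertices and `e : {x // x ≠ a ∧ x ≠ b} ≃ Fin k`
(cardinality `k`).  (1) If `NoE G k` fails there are `P`, `Q`, `B` which do not touch, and the branch
sets `P` for `a`, `Q` for `b` and `B (e x)` for the other vertices are an induced minor model of `H`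
(`cn_iff` for the connectedness).  (2) If `H` is an induced minor with branch sets `C` then `NoE`
applied to `P = C a`, `Q = C b`, `B i = C (e.symm i)` gives an edge between `C a` and `C b`, against
`¬ H.Adj a b`. -/
def SpecMNI : Prop :=
  ∀ (V : Type u) (G : SimpleGraph V) (k : ℕ) (α : Type v) (H : SimpleGraph α),
    IsCompleteMinusEdge (k + 2) H → (NoE G k ↔ ¬ IsInducedMinor H G)

/-- MODULE MNM (90 lines).  If `G` has no induced minor `K_(k+2)` minus an edge then a `K_(k+2)`
minus an edge minor is a `K_(k+2)` minor.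
PROOF.  Let `C` be the branch sets of a minor model of `H`, `a`, `b` the two non-adjacent vertices,
`e : {x // x ≠ a ∧ x ≠ b} ≃ Fin k`.  `NoE` applied to `P = C a`, `Q = C b`, `B i = C (e.symm i)` shows
that `C a` and `C b` touch.  So all the `C x` touch pairwise and, with `e' : Fin (k + 2) ≃ α`,
`B i = C (e' i)` is the wanted system. -/
def SpecMNM : Prop :=
  ∀ (V : Type u) (G : SimpleGraph V) (k : ℕ) (α : Type v) (H : SimpleGraph α),
    IsCompleteMinusEdge (k + 2) H → NoE G k → IsMinor H G →
      ∃ B : Fin (k + 2) → Set V, KM G B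

/-- MODULE FIN (70 lines).  USES `SpecMAI`, `SpecMNI`, `SpecMNM`.  The theorem of the hand-in.
PROOF.  `n = k + 2`, `m = max (k + 2) (2 k - 2)`.  `SpecMNI` gives `NoE G k`; `SpecMAI`; a minor model
of `⊤ : SimpleGraph (Fin m)` is a system `KM` (`cn_iff`); if `n ≤ 6` then `m = n` and `SpecMNM` excludes
`H` as a minor of `G'`. -/
def SpecFIN : Prop :=
  ∀ (n : ℕ), 3 ≤ n → ∀ (V : Type u) (G : SimpleGraph V) (α : Type v) (H : SimpleGraph α),
    IsCompleteMinusEdge n H → ¬ IsInducedMinor H G →
    ∃ (W : Type u) (G' : SimpleGraph W) (f : V → W), CliqueQuotient G G' f ∧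
      (∀ x y : V, G.edist x y ≤ 2 * G'.edist (f x) (f y) + 1) ∧
      (∀ x y : V, G'.edist (f x) (f y) ≤ G.edist x y) ∧
      ¬ IsInducedMinor H G' ∧
      ¬ IsMinor (⊤ : SimpleGraph (Fin (max n (2 * n - 6)))) G' ∧
      (n ≤ 6 → ¬ IsMinor H G')

end Pool.Agent.Lib.MPbafc89.KE
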