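import Pool.Agent.Lib.MP_bafc89_co.KE.Spec

/-!
# MP_bafc89_co, complete graph minus an edge: module TRV
-/

set_option autoImplicit false

namespace Pool.Agent.Lib.MPbafc89.KE

open SimpleGraph
open Pool.Agent.Lib.MPbafc89.BQ (Jn Cn)

universe u

theorem specTRV (hSHR : SpecSHR.{u}) (hLMA : SpecLMA.{u}) : SpecTRV.{u} := by
  intro V G k m hN hk h1 h2 B hB
  obtain ⟨B', hB', hsub, hfin⟩ := hSHR V G m B hB
  obtain ⟨b, hb, hadj⟩ := hLMA V G k m hN hk h1 h2 B' hB' hfin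
  exact ⟨b, fun i => hsub i (hb i), hadj⟩

end Pool.Agent.Lib.MPbafc89.KE
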