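import Pool.Agent.Lib.MP_bafc89_co.KE.Spec

set_option autoImplicit false

namespace Pool.Agent.Lib.MPbafc89.KE

open SimpleGraph
open Pool.Agent.Lib.MPbafc89.BQ (Jn Cn)

universe u

theorem specUNI (hINT : SpecINT.{u}) (hINV : SpecINV.{u}) (hSTE : SpecSTE.{u}) :
    SpecUNI.{u} := by
  intro V G k m hN hk hkm hkm2 ρ hρ K K' hK hK' hne v hv hv'
  by_contra hcon
  obtain ⟨hc, hc'⟩ := not_or.1 hcon
  have inv := hINV V G k m hN hk hkm hkm2 ρ hρ K hK
  have inv' := hINV V G k m hN hk hkm hkm2 ρ hρ K' hK'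
  have mono : ∀ j, j ≤ k → top G ρ k K j ⊆ top G ρ k K k := fun j hj =>
    monotone_nat_of_le_succ (f := fun n => top G ρ k K n) (fun n => (inv n).2.2) hj
  have mono' : ∀ j, j ≤ k → top G ρ k K' j ⊆ top G ρ k K' k := fun j hj =>
    monotone_nat_of_le_succ (f := fun n => top G ρ k K' n) (fun n => (inv' n).2.2) hj
  have key : ∀ j : ℕ, j ≤ k → top G ρ k K j = top G ρ k K' j ∧ top G ρ k K j ⊆ K' ∧
      (j : ℕ∞) ≤ (top G ρ k K j).encard := by
    intro j
    induction j with
    | zero =>
      intro _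
      refine ⟨rfl, ?_, ?_⟩
      · intro x hx
        exact absurd hx (Set.notMem_empty x)
      · simp
    | succ j ih =>
      intro hj
      obtain ⟨h1, h2, h3⟩ := ih (by omega)
      have hvX : v ∉ top G ρ k K j := fun h => hc (mono j (by omega) h)
      have hcard : (top G ρ k K j).encard + 1 < (k : ℕ∞) := by
        rw [← Set.encard_insert_of_notMem hvX]
        refine lt_of_le_of_lt (Set.encard_le_encard ?_)
          (hINT V G k m hN hk hkm hkm2 K K' hK hK' hne)
        intro x hx
        rcases hx with rfl | hx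
        · exact ⟨hv, hv'⟩
        · exact ⟨(inv j).1 hx, h2 hx⟩
      have e1 : top G ρ k K (j + 1) = nxt G ρ K (top G ρ k K j) := by
        show (if (top G ρ k K j).encard + 1 < (k : ℕ∞) then nxt G ρ K (top G ρ k K j)
          else top G ρ k K j) = _
        rw [if_pos hcard]
      have e2 : top G ρ k K' (j + 1) = nxt G ρ K' (top G ρ k K j) := by
        show (if (top G ρ k K' j).encard + 1 < (k : ℕ∞) then nxt G ρ K' (top G ρ k K' j)
          else top G ρ k K' j) = _
        rw [← h1, if_pos hcard]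
      obtain ⟨s1, s2, s3⟩ := hSTE V G ρ hρ K K' (top G ρ k K j) v hK.clq hK'.clq hv hv'
        (inv j).1 h2 hvX (by rw [← e1]; exact fun h => hc (mono (j + 1) hj h))
        (by rw [← e2]; exact fun h => hc' (mono' (j + 1) hj h))
      refine ⟨by rw [e1, e2, s1], by rw [e1]; exact s2, ?_⟩
      have hfin : (nxt G ρ K (top G ρ k K j)).Finite := by
        rw [← e1]
        exact Set.encard_lt_top_iff.1 (lt_of_lt_of_le (inv (j + 1)).2.1 le_top)
      have hfin0 : (top G ρ k K j).Finite :=
        Set.encard_lt_top_iff.1 (lt_of_lt_of_le (inv j).2.1 le_top)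
      have hlt := hfin0.encard_lt_encard s3
      rw [e1]
      push_cast
      exact (add_le_add_left h3 1).trans (Order.add_one_le_of_lt hlt)
  have h := (key k le_rfl).2.2
  exact absurd (inv k).2.1 (not_lt.2 h)

end Pool.Agent.Lib.MPbafc89.KE
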