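import Pool.Agent.Lib.MP_bafc89_co.KE.Spec

/-! ZRN: every clique with `m` elements is contained in a big clique. -/

set_option autoImplicit false

namespace Pool.Agent.Lib.MPbafc89.KE

open SimpleGraph

universe u

namespace ZRNM

/-- the cliques containing `A` -/
def Cq {V : Type u} (G : SimpleGraph V) (A : Set V) : Set (Set V) :=
  {K | (∀ x ∈ K, ∀ y ∈ K, x ≠ y → G.Adj x y) ∧ A ⊆ K}

lemma chain {V : Type u} (G : SimpleGraph V) (A : Set V) (c : Set (Set V)) (hc : c ⊆ Cq G A)
    (hch : IsChain (· ⊆ ·) c) (hne : c.Nonempty) : ∃ ub ∈ Cq G A, ∀ s ∈ c, s ⊆ ub := by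
  refine ⟨⋃₀ c, ⟨?_, ?_⟩, fun s hs => Set.subset_sUnion_of_mem hs⟩
  · rintro x ⟨s, hs, hx⟩ y ⟨t, ht, hy⟩ hxy
    rcases hch.total hs ht with h | h
    · exact (hc ht).1 x (h hx) y hy hxy
    · exact (hc hs).1 x hx y (h hy) hxy
  · obtain ⟨s, hs⟩ := hne
    exact ((hc hs).2).trans (Set.subset_sUnion_of_mem hs)

end ZRNM

open ZRNM in
/-- Every clique with `m` elements is contained in a big clique. -/
theorem specZRN : SpecZRN.{u} := by
  intro V G m b hb
  have h0 : Set.range b ∈ Cq G (Set.range b) := by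
    refine ⟨?_, subset_rfl⟩
    rintro _ ⟨i, rfl⟩ _ ⟨j, rfl⟩ hij
    exact hb i j (fun h => hij (by rw [h]))
  obtain ⟨K, hK, hmax⟩ := zorn_subset_nonempty (Cq G (Set.range b)) (chain G _) _ h0
  have hinj : Function.Injective b := by
    intro i j hij
    by_contra h
    exact (hb i j h).ne hij
  refine ⟨K, ⟨hmax.prop.1, ?_, ?_⟩, fun i => hK ⟨i, rfl⟩⟩
  · intro x hx
    by_contra hcon
    push Not at hcon
    have h1 : insert x K ∈ Cq G (Set.range b) := by
      refine ⟨?_, hK.trans (Set.subset_insert x K)⟩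
      intro y hy z hz hyz
      rcases hy with rfl | hy
      · rcases hz with rfl | hz
        · exact absurd rfl hyz
        · exact hcon z hz
      · rcases hz with rfl | hz
        · exact (hcon y hy).symm
        · exact hmax.prop.1 y hy z hz hyz
    exact hx (hmax.le_of_ge h1 (Set.subset_insert x K) (Set.mem_insert x K))
  · have h2 : (Set.range b).encard = (m : ℕ∞) := by
      rw [← Set.image_univ, hinj.encard_image, Set.encard_univ, ENat.card_eq_coe_fintype_card,
        Fintype.card_fin]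
    rw [← h2]
    exact Set.encard_le_encard hK

end Pool.Agent.Lib.MPbafc89.KE
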